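import Mathlib

/-!
# Project EK4 (level certificates): the inequality on one arc of a level line
-/

set_option autoImplicit false

open MeasureTheory Set Filter Topology
open scoped NNReal Real

namespace Pool.Agent.Helper84.EK4

/-- a function continuous on a closed interval whose derivative on the open interval extends
continuously is Lipschitz -/
theorem lip_of_deriv {f f' : ℝ → ℝ} {a b : ℝ} (hab : a < b) (hc : ContinuousOn f (Icc a b))
    (hc' : ContinuousOn f' (Icc a b)) (hd : ∀ x ∈ Ioo a b, HasDerivAt f (f' x) x) :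
    ∃ K : ℝ≥0, LipschitzOnWith K f (Icc a b) := by
  obtain ⟨C, hC⟩ := isCompact_Icc.exists_bound_of_continuousOn hc'
  refine ⟨⟨max C 0, le_max_right _ _⟩, ?_⟩
  have h1 : LipschitzOnWith ⟨max C 0, le_max_right _ _⟩ f (Ioo a b) := by
    refine (convex_Ioo a b).lipschitzOnWith_of_nnnorm_hasDerivWithin_le
      (fun x hx => (hd x hx).hasDerivWithinAt) fun x hx => ?_
    rw [← NNReal.coe_le_coe, coe_nnnorm]
    exact (hC x (Ioo_subset_Icc_self hx)).trans (le_max_left _ _)
  have h2 := LipschitzOnWith.closure (by rwa [closure_Ioo hab.ne]) h1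
  rwa [closure_Ioo hab.ne] at h2

theorem ac_of_lip {f : ℝ → ℝ} {a b : ℝ} (hab : a ≤ b)
    (h : ∃ K : ℝ≥0, LipschitzOnWith K f (Icc a b)) : AbsolutelyContinuousOnInterval f a b := by
  obtain ⟨K, hK⟩ := h
  rw [← uIcc_of_le hab] at hK
  exact hK.absolutelyContinuousOnInterval

/-- integration by parts -/
theorem parts {k k' e e' : ℝ → ℝ} {a b : ℝ} (hab : a ≤ b) (ck : ContinuousOn k (Icc a b))
    (ck' : ContinuousOn k' (Icc a b)) (ce : ContinuousOn e (Icc a b))
    (ce' : ContinuousOn e' (Icc a b)) (dk : ∀ x ∈ Ioo a b, HasDerivAt k (k' x) x)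
    (de : ∀ x ∈ Ioo a b, HasDerivAt e (e' x) x) :
    ∫ x in a..b, k x * e' x = k b * e b - k a * e a - ∫ x in a..b, k' x * e x := by
  rw [← uIcc_of_le hab] at ck ck' ce ce'
  refine intervalIntegral.integral_mul_deriv_eq_deriv_mul_of_hasDerivAt ck ce ?_ ?_
    ck'.intervalIntegrable ce'.intervalIntegrable
  · rw [min_eq_left hab, max_eq_right hab]
    exact dk
  · rw [min_eq_left hab, max_eq_right hab]
    exact de

theorem abs_int_mul_le {k' e : ℝ → ℝ} {a b B : ℝ} (hab : a ≤ b)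
    (ck' : ContinuousOn k' (Icc a b)) (ce : ContinuousOn e (Icc a b))
    (hB : ∀ x ∈ Icc a b, |e x| ≤ B) :
    |∫ x in a..b, k' x * e x| ≤ B * ∫ x in a..b, |k' x| := by
  rw [← intervalIntegral.integral_const_mul]
  refine (intervalIntegral.abs_integral_le_integral_abs hab).trans ?_
  refine intervalIntegral.integral_mono_on hab
    ((ck'.mul ce).abs.intervalIntegrable_of_Icc hab)
    ((ck'.abs.const_smul B).intervalIntegrable_of_Icc hab) fun x hx => ?_
  rw [abs_mul, mul_comm]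
  exact mul_le_mul_of_nonneg_right (hB x hx) (abs_nonneg _)

/-- the end value is bounded by the mean up to the variation -/
theorem end_le {k k' : ℝ → ℝ} {a b : ℝ} (hab : a ≤ b) (ck : ContinuousOn k (Icc a b))
    (ck' : ContinuousOn k' (Icc a b)) (dk : ∀ x ∈ Ioo a b, HasDerivAt k (k' x) x) :
    k b * (b - a) - (b - a) * (∫ x in a..b, |k' x|) ≤ ∫ x in a..b, k x := by
  have h1 : ∀ x ∈ Icc a b, k b - (∫ x in a..b, |k' x|) ≤ k x := by
    intro x hx
    have hc : ContinuousOn k (Icc x b) := ck.mono (Icc_subset_Icc_left hx.1)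
    have hc' : ContinuousOn k' (Icc x b) := ck'.mono (Icc_subset_Icc_left hx.1)
    have h2 : ∫ t in x..b, k' t = k b - k x :=
      intervalIntegral.integral_eq_sub_of_hasDerivAt_of_le hx.2 hc
        (fun t ht => dk t ⟨hx.1.trans_lt ht.1, ht.2⟩) (hc'.intervalIntegrable_of_Icc hx.2)
    have h3 : ∫ t in x..b, k' t ≤ ∫ t in x..b, |k' t| :=
      intervalIntegral.integral_mono_on hx.2 (hc'.intervalIntegrable_of_Icc hx.2)
        (hc'.abs.intervalIntegrable_of_Icc hx.2) fun t _ => le_abs_self _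
    have h4 : ∫ t in x..b, |k' t| ≤ ∫ t in a..b, |k' t| := by
      have hi1 : IntervalIntegrable (fun t => |k' t|) volume a x :=
        ((ck'.mono (Icc_subset_Icc_right hx.2)).abs).intervalIntegrable_of_Icc hx.1
      have hi2 : IntervalIntegrable (fun t => |k' t|) volume x b :=
        hc'.abs.intervalIntegrable_of_Icc hx.2
      rw [← intervalIntegral.integral_add_adjacent_intervals hi1 hi2]
      have : 0 ≤ ∫ t in a..x, |k' t| :=
        intervalIntegral.integral_nonneg hx.1 fun t _ => abs_nonneg _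
      linarith
    linarith
  have h5 : ∫ x in a..b, (k b - (∫ x in a..b, |k' x|)) ≤ ∫ x in a..b, k x :=
    intervalIntegral.integral_mono_on hab (continuous_const.intervalIntegrable _ _)
      (ck.intervalIntegrable_of_Icc hab) h1
  rw [intervalIntegral.integral_const, smul_eq_mul] at h5
  linarith

/-- the clamp -/
noncomputable def cl (lo hi x : ℝ) : ℝ := max lo (min x hi)

theorem cl_lip {p lo hi : ℝ → ℝ} {s : Set ℝ} (h1 : ∃ K : ℝ≥0, LipschitzOnWith K p s)
    (h2 : ∃ K : ℝ≥0, LipschitzOnWith K lo s) (h3 : ∃ K : ℝ≥0, LipschitzOnWith K hi s) :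
    ∃ K : ℝ≥0, LipschitzOnWith K (fun x => cl (lo x) (hi x) (p x)) s := by
  obtain ⟨K₁, h1⟩ := h1
  obtain ⟨K₂, h2⟩ := h2
  obtain ⟨K₃, h3⟩ := h3
  have h4 : LipschitzOnWith (1 * max K₁ K₃) (fun x => min (p x) (hi x)) s :=
    lipschitzWith_min.comp_lipschitzOnWith (h1.prodMk h3)
  exact ⟨_, lipschitzWith_max.comp_lipschitzOnWith (h2.prodMk h4)⟩

theorem lip_add {f g : ℝ → ℝ} {s : Set ℝ} (h1 : ∃ K : ℝ≥0, LipschitzOnWith K f s)
    (h2 : ∃ K : ℝ≥0, LipschitzOnWith K g s) :
    ∃ K : ℝ≥0, LipschitzOnWith K (fun x => f x + g x) s := by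
  obtain ⟨K₁, h1⟩ := h1
  obtain ⟨K₂, h2⟩ := h2
  exact ⟨_, h1.add h2⟩

/-- the derivative of the clamp where it exists -/
theorem cl_deriv {e e' p p' : ℝ → ℝ} {x : ℝ} (de : HasDerivAt e (e' x) x)
    (dp : HasDerivAt p (p' x) x)
    (hs : DifferentiableAt ℝ (fun t => cl (-(e t / 2)) ((π - e t) / 2) (p t)) x) :
    (cl (-(e x / 2)) ((π - e x) / 2) (p x) = p x ∧
      HasDerivAt (fun t => cl (-(e t / 2)) ((π - e t) / 2) (p t)) (p' x) x) ∨
    HasDerivAt (fun t => cl (-(e t / 2)) ((π - e t) / 2) (p t)) (-(e' x / 2)) x := by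
  have hπ := Real.pi_pos
  have hlh : ∀ t, -(e t / 2) ≤ (π - e t) / 2 := fun t => by linarith
  have dlo : HasDerivAt (fun t => -(e t / 2)) (-(e' x / 2)) x := (de.div_const 2).neg
  have dhi : HasDerivAt (fun t => (π - e t) / 2) (-(e' x / 2)) x := by
    have := (de.const_sub π).div_const 2
    exact this.congr_deriv (by ring)
  set S : ℝ → ℝ := fun t => cl (-(e t / 2)) ((π - e t) / 2) (p t) with hS
  have key : ∀ q : ℝ → ℝ, HasDerivAt q (-(e' x / 2)) x →
      ((∀ t, S t ≤ q t) ∨ (∀ t, q t ≤ S t)) → S x = q x → HasDerivAt S (-(e' x / 2)) x := by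
    intro q dq hq hx
    have h1 : HasDerivAt (fun t => S t - q t) (deriv S x - -(e' x / 2)) x :=
      hs.hasDerivAt.sub dq
    have h2 : deriv S x - -(e' x / 2) = 0 := by
      rcases hq with hq | hq
      · refine IsLocalMax.hasDerivAt_eq_zero (f := fun t => S t - q t) ?_ h1
        refine Filter.Eventually.of_forall fun t => ?_
        have := hq t
        simp only
        rw [hx]
        linarith
      · refine IsLocalMin.hasDerivAt_eq_zero (f := fun t => S t - q t) ?_ h1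
        refine Filter.Eventually.of_forall fun t => ?_
        have := hq t
        simp only
        rw [hx]
        linarith
    have h3 : deriv S x = -(e' x / 2) := by linarith
    rw [← h3]
    exact hs.hasDerivAt
  rcases le_or_gt (p x) (-(e x / 2)) with h | h
  · right
    refine key _ dlo (Or.inr fun t => le_max_left _ _) ?_
    simp only [hS, cl]
    rw [min_eq_left (h.trans (hlh x)), max_eq_left h]
  rcases le_or_gt ((π - e x) / 2) (p x) with h' | h'
  · right
    refine key _ dhi (Or.inl fun t => max_le (hlh t) (min_le_right _ _)) ?_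
    simp only [hS, cl]
    rw [min_eq_right h', max_eq_right (hlh x)]
  · left
    have h1 : ∀ᶠ t in 𝓝 x, -(e t / 2) < p t :=
      dlo.continuousAt.eventually_lt dp.continuousAt h
    have h2 : ∀ᶠ t in 𝓝 x, p t < (π - e t) / 2 :=
      dp.continuousAt.eventually_lt dhi.continuousAt h'
    have h3 : S =ᶠ[𝓝 x] p := by
      filter_upwards [h1, h2] with t a1 a2
      simp only [hS, cl]
      rw [min_eq_left a2.le, max_eq_right a1.le]
    exact ⟨h3.eq_of_nhds, dp.congr_of_eventuallyEq h3⟩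

/-- the arc which separates -/
theorem arc_P {a b w₀ M : ℝ} (hab : a < b) (hL : b - a ≤ 2 * π) (hw₀ : 0 ≤ w₀)
    {e e' k k' v v' g : ℝ → ℝ}
    (ce : ContinuousOn e (Icc a b)) (ce' : ContinuousOn e' (Icc a b))
    (ck : ContinuousOn k (Icc a b)) (ck' : ContinuousOn k' (Icc a b))
    (cv : ContinuousOn v (Icc a b)) (cv' : ContinuousOn v' (Icc a b))
    (cg : ContinuousOn g (Icc a b))
    (de : ∀ x ∈ Ioo a b, HasDerivAt e (e' x) x) (dk : ∀ x ∈ Ioo a b, HasDerivAt k (k' x) x)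
    (dv : ∀ x ∈ Ioo a b, HasDerivAt v (v' x) x)
    (k0 : ∀ x ∈ Icc a b, 0 ≤ k x)
    (e0 : ∀ x ∈ Icc a b, 0 ≤ e x) (e1 : ∀ x ∈ Icc a b, e x ≤ π)
    (vM : ∀ x ∈ Icc a b, |v x| ≤ M)
    (hM : ∀ x ∈ Ioo a b, ∀ s : ℝ, 2 * |s| ≤ e x → 2 * |s| ≤ π - e x →
      v' x * s + v x * (e' x / 2 - 1 / 4) ≤ g x)
    (hS : ∀ x ∈ Ioo a b, 0 ≤ (v x - w₀) * (e' x - 1 / 4))
    (ha : e a = 0) (hb : e b = π) :
    0 ≤ (∫ x in a..b, k x * g x) - w₀ / 2 * (∫ x in a..b, k x * e' x) +
      w₀ / 4 * (∫ x in a..b, k x) +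
      (w₀ * π / 2 + (M + w₀) * π / 4 + w₀ * π) * ∫ x in a..b, |k' x| := by
  have hπ := Real.pi_pos
  have hab' := hab.le
  set p : ℝ → ℝ := fun x => e x / 2 - (x - a) / 4 with hp
  set p' : ℝ → ℝ := fun x => e' x / 2 - 1 / 4 with hp'
  have dp : ∀ x ∈ Ioo a b, HasDerivAt p (p' x) x := fun x hx =>
    ((de x hx).div_const 2).sub (((hasDerivAt_id x).sub_const a).div_const 4)
  have cp : ContinuousOn p (Icc a b) :=
    (ce.div_const 2).sub (((continuousOn_id).sub continuousOn_const).div_const 4)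
  have cp' : ContinuousOn p' (Icc a b) := (ce'.div_const 2).sub continuousOn_const
  set S : ℝ → ℝ := fun x => cl (-(e x / 2)) ((π - e x) / 2) (p x) with hSd
  have le : ∃ K : ℝ≥0, LipschitzOnWith K e (Icc a b) := lip_of_deriv hab ce ce' de
  have lp : ∃ K : ℝ≥0, LipschitzOnWith K p (Icc a b) := lip_of_deriv hab cp cp' dp
  have lk : ∃ K : ℝ≥0, LipschitzOnWith K k (Icc a b) := lip_of_deriv hab ck ck' dk
  have lv : ∃ K : ℝ≥0, LipschitzOnWith K v (Icc a b) := lip_of_deriv hab cv cv' dv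
  have llo : ∃ K : ℝ≥0, LipschitzOnWith K (fun x => -(e x / 2)) (Icc a b) :=
    lip_of_deriv hab (ce.div_const 2).neg (ce'.div_const 2).neg
      fun x hx => ((de x hx).div_const 2).neg
  have lhi : ∃ K : ℝ≥0, LipschitzOnWith K (fun x => (π - e x) / 2) (Icc a b) :=
    lip_of_deriv hab ((continuousOn_const.sub ce).div_const 2) (ce'.neg.div_const 2)
      fun x hx => ((de x hx).const_sub π).div_const 2
  have lS : ∃ K : ℝ≥0, LipschitzOnWith K S (Icc a b) := cl_lip lp llo lhi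
  have aS := ac_of_lip hab' lS
  have ap := ac_of_lip hab' lp
  have ak := ac_of_lip hab' lk
  have av := ac_of_lip hab' lv
  have cS : ContinuousOn S (Icc a b) := by
    obtain ⟨K, hK⟩ := lS
    exact hK.continuousOn
  set φ : ℝ → ℝ := fun x => w₀ * p x + (v x - w₀) * S x with hφ
  have avw : AbsolutelyContinuousOnInterval (fun x => v x - w₀) a b :=
    ac_of_lip hab' (lip_of_deriv hab (cv.sub continuousOn_const) cv'
      fun x hx => (dv x hx).sub_const w₀)
  have aφ : AbsolutelyContinuousOnInterval φ a b := (ap.const_mul w₀).add (avw.mul aS)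
  have cφ : ContinuousOn φ (Icc a b) :=
    (continuousOn_const.mul cp).add ((cv.sub continuousOn_const).mul cS)
  -- bounds for the clamp
  have pb : ∀ x ∈ Icc a b, p x ≤ e x / 2 ∧ -((π - e x) / 2) ≤ p x := by
    intro x hx
    have h1 := hx.1
    have h2 := hx.2
    simp only [hp]
    constructor <;> linarith
  have sb : ∀ x ∈ Icc a b, 2 * |S x| ≤ e x ∧ 2 * |S x| ≤ π - e x := by
    intro x hx
    obtain ⟨h1, h2⟩ := pb x hx
    have h3 := e0 x hx
    have h4 := e1 x hx
    have u1 : S x ≤ e x / 2 := max_le (by linarith) ((min_le_left _ _).trans h1)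
    have u2 : S x ≤ (π - e x) / 2 := max_le (by linarith) (min_le_right _ _)
    have u3 : -(e x / 2) ≤ S x := le_max_left _ _
    have u4 : -((π - e x) / 2) ≤ S x :=
      (le_min h2 (by linarith)).trans (le_max_right _ _)
    have a1 : |S x| ≤ e x / 2 := abs_le.2 ⟨u3, u1⟩
    have a2 : |S x| ≤ (π - e x) / 2 := abs_le.2 ⟨u4, u2⟩
    constructor <;> linarith
  have pbd : ∀ x ∈ Icc a b, |p x| ≤ π / 2 := by
    intro x hx
    obtain ⟨h1, h2⟩ := pb x hx
    have h3 := e0 x hx
    have h4 := e1 x hx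
    exact abs_le.2 ⟨by linarith, by linarith⟩
  have φb : ∀ x ∈ Icc a b, |φ x| ≤ w₀ * π / 2 + (M + w₀) * π / 4 := by
    intro x hx
    obtain ⟨h1, h2⟩ := sb x hx
    have h3 := pbd x hx
    have h4 : |v x - w₀| ≤ M + w₀ := by
      refine (abs_sub _ _).trans ?_
      rw [abs_of_nonneg hw₀]
      linarith [vM x hx]
    have h5 : |S x| ≤ π / 4 := by linarith
    have h6 : |w₀ * p x| ≤ w₀ * (π / 2) := by
      rw [abs_mul, abs_of_nonneg hw₀]
      exact mul_le_mul_of_nonneg_left h3 hw₀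
    have h7 : |(v x - w₀) * S x| ≤ (M + w₀) * (π / 4) := by
      rw [abs_mul]
      exact mul_le_mul h4 h5 (abs_nonneg _) ((abs_nonneg _).trans h4)
    calc |φ x| ≤ |w₀ * p x| + |(v x - w₀) * S x| := abs_add_le _ _
      _ ≤ w₀ * (π / 2) + (M + w₀) * (π / 4) := add_le_add h6 h7
      _ = _ := by ring
  -- values at the ends
  have φa : φ a = 0 := by
    have h1 : (0 : ℝ) ≤ π / 2 := by positivity
    simp only [hφ, hSd, hp, cl, ha, sub_self, zero_div, sub_zero, neg_zero]
    rw [min_eq_left h1, max_self, mul_zero, mul_zero, add_zero]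
  have φe : φ b = w₀ * (π / 2 - (b - a) / 4) := by
    have h1 : 0 ≤ π / 2 - (b - a) / 4 := by linarith
    simp only [hφ, hSd, hp, cl, hb, sub_self, zero_div]
    rw [min_eq_right h1, max_eq_right (by linarith)]
    ring
  -- the pointwise inequality
  have hae : ∀ᵐ x ∂(volume.restrict (Icc a b)), k x * deriv φ x ≤ k x * g x := by
    have h1 : ∀ᵐ x : ℝ, x ∈ uIcc a b → DifferentiableAt ℝ S x := aS.ae_differentiableAt
    have h2 : ∀ᵐ x : ℝ, x ≠ a := by
      simpa using (measure_eq_zero_iff_ae_notMem.1 (measure_singleton (μ := (volume : Measure ℝ)) a))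
    have h3 : ∀ᵐ x : ℝ, x ≠ b := by
      simpa using (measure_eq_zero_iff_ae_notMem.1 (measure_singleton (μ := (volume : Measure ℝ)) b))
    rw [ae_restrict_iff' measurableSet_Icc]
    filter_upwards [h1, h2, h3] with x g1 g2 g3 hx
    have hxo : x ∈ Ioo a b := ⟨lt_of_le_of_ne hx.1 (Ne.symm g2), lt_of_le_of_ne hx.2 g3⟩
    rw [uIcc_of_le hab'] at g1
    have hdS := g1 hx
    refine mul_le_mul_of_nonneg_left ?_ (k0 x hx)
    obtain ⟨s1, s2⟩ := sb x hx
    have hm := hM x hxo (S x) s1 s2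
    have hs := hS x hxo
    rcases cl_deriv (de x hxo) (dp x hxo) hdS with ⟨q1, q2⟩ | q2
    · have hd : HasDerivAt φ (w₀ * p' x + (v' x * S x + (v x - w₀) * p' x)) x :=
        ((dp x hxo).const_mul w₀).add (((dv x hxo).sub_const w₀).mul q2)
      rw [hd.deriv]
      have e1 : w₀ * p' x + (v' x * S x + (v x - w₀) * p' x) =
          v' x * S x + v x * (e' x / 2 - 1 / 4) := by
        simp only [hp']
        ring
      rw [e1]
      exact hm
    · have hd : HasDerivAt φ (w₀ * p' x + (v' x * S x + (v x - w₀) * -(e' x / 2))) x :=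
        ((dp x hxo).const_mul w₀).add (((dv x hxo).sub_const w₀).mul q2)
      rw [hd.deriv]
      have e1 : w₀ * p' x + (v' x * S x + (v x - w₀) * -(e' x / 2)) =
          v' x * S x + v x * (e' x / 2 - 1 / 4) - (v x - w₀) * (e' x - 1 / 4) := by
        simp only [hp']
        ring
      rw [e1]
      linarith
  have idφ : IntervalIntegrable (fun x => k x * deriv φ x) volume a b := by
    refine aφ.intervalIntegrable_deriv.continuousOn_mul ?_
    rw [uIcc_of_le hab']
    exact ck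
  have ikg : IntervalIntegrable (fun x => k x * g x) volume a b :=
    (ck.mul cg).intervalIntegrable_of_Icc hab'
  have m1 : ∫ x in a..b, k x * deriv φ x ≤ ∫ x in a..b, k x * g x :=
    intervalIntegral.integral_mono_ae_restrict hab' idφ ikg hae
  have m2 := ak.integral_mul_deriv_eq_deriv_mul aφ
  have m3 : ∫ x in a..b, deriv k x * φ x = ∫ x in a..b, k' x * φ x := by
    refine intervalIntegral.integral_congr_ae ?_
    have h3 : ∀ᵐ x : ℝ, x ≠ b := by
      simpa using (measure_eq_zero_iff_ae_notMem.1 (measure_singleton (μ := (volume : Measure ℝ)) b))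
    filter_upwards [h3] with x g3 hx
    rw [uIoc_of_le hab'] at hx
    rw [(dk x ⟨hx.1, lt_of_le_of_ne hx.2 g3⟩).deriv]
  rw [m3, φa, φe, mul_zero, sub_zero] at m2
  have m4 := abs_int_mul_le hab' ck' cφ φb
  have m5 := parts hab' ck ck' ce ce' dk de
  rw [ha, hb, mul_zero, sub_zero] at m5
  have m6 := abs_int_mul_le (B := π) hab' ck' ce fun x hx => by
    rw [abs_of_nonneg (e0 x hx)]
    exact e1 x hx
  have m7 := end_le hab' ck ck' dk
  obtain ⟨J, hJ⟩ : ∃ J, J = ∫ x in a..b, |k' x| := ⟨_, rfl⟩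
  have hJ0 : 0 ≤ J := by
    rw [hJ]
    exact intervalIntegral.integral_nonneg hab' fun x _ => abs_nonneg _
  rw [← hJ] at m4 m6 m7 ⊢
  rw [m5]
  rw [m2] at m1
  have m4' := (abs_le.1 m4).2
  have m6' := (abs_le.1 m6).1
  have n1 : k b * (w₀ * (π / 2 - (b - a) / 4)) -
      (w₀ * π / 2 + (M + w₀) * π / 4) * J ≤ ∫ x in a..b, k x * g x := by linarith
  have n2 : w₀ / 2 * (k b * π - ∫ x in a..b, k' x * e x) ≤ w₀ / 2 * (k b * π + π * J) :=
    mul_le_mul_of_nonneg_left (by linarith) (by linarith)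
  have n3 : w₀ / 4 * (k b * (b - a) - 2 * π * J) ≤ w₀ / 4 * ∫ x in a..b, k x := by
    refine mul_le_mul_of_nonneg_left ?_ (by linarith)
    have : (b - a) * J ≤ 2 * π * J := mul_le_mul_of_nonneg_right hL hJ0
    linarith
  have n4 : (w₀ * π / 2 + (M + w₀) * π / 4 + w₀ * π) * J =
      (w₀ * π / 2 + (M + w₀) * π / 4) * J + w₀ / 2 * (π * J) + w₀ / 4 * (2 * π * J) := by ring
  rw [n4]
  have n5 : k b * (w₀ * (π / 2 - (b - a) / 4)) =
      w₀ / 2 * (k b * π) - w₀ / 4 * (k b * (b - a)) := by ring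
  rw [n5] at n1
  have n6 : w₀ / 2 * (k b * π + π * J) = w₀ / 2 * (k b * π) + w₀ / 2 * (π * J) := by ring
  have n7 : w₀ / 4 * (k b * (b - a) - 2 * π * J) =
      w₀ / 4 * (k b * (b - a)) - w₀ / 4 * (2 * π * J) := by ring
  rw [n6] at n2
  rw [n7] at n3
  linarith

/-- the other arcs -/
theorem arc_O {a b w₀ μ : ℝ} (hab : a < b) (hw₀ : 0 ≤ w₀) (hμ : 0 ≤ μ + w₀)
    {e e' k k' g : ℝ → ℝ}
    (ce : ContinuousOn e (Icc a b)) (ce' : ContinuousOn e' (Icc a b))
    (ck : ContinuousOn k (Icc a b)) (ck' : ContinuousOn k' (Icc a b))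
    (cg : ContinuousOn g (Icc a b))
    (de : ∀ x ∈ Ioo a b, HasDerivAt e (e' x) x) (dk : ∀ x ∈ Ioo a b, HasDerivAt k (k' x) x)
    (k0 : ∀ x ∈ Icc a b, 0 ≤ k x)
    (e0 : ∀ x ∈ Icc a b, 0 ≤ e x) (e1 : ∀ x ∈ Icc a b, e x ≤ π)
    (hO : ∀ x ∈ Icc a b, -(w₀ / 4) - μ / 2 * e' x ≤ g x)
    (hend : (k b = 0 ∨ e b = 0) ∨ (e b = π ∧ (k a = 0 ∨ e a = π))) :
    0 ≤ (∫ x in a..b, k x * g x) - w₀ / 2 * (∫ x in a..b, k x * e' x) +
      w₀ / 4 * (∫ x in a..b, k x) + (μ + w₀) / 2 * π * ∫ x in a..b, |k' x| := by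
  have hπ := Real.pi_pos
  have hab' := hab.le
  have ha' : a ∈ Icc a b := left_mem_Icc.2 hab'
  have hb' : b ∈ Icc a b := right_mem_Icc.2 hab'
  have key : ∫ x in a..b, k x * e' x ≤ π * ∫ x in a..b, |k' x| := by
    rcases hend with h | ⟨h1, h2⟩
    · have m5 := parts hab' ck ck' ce ce' dk de
      have m6 := abs_int_mul_le (B := π) hab' ck' ce fun x hx => by
        rw [abs_of_nonneg (e0 x hx)]
        exact e1 x hx
      have m7 : k b * e b = 0 := by
        rcases h with h | h <;> rw [h]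
        · rw [zero_mul]
        · rw [mul_zero]
      have m8 : 0 ≤ k a * e a := mul_nonneg (k0 a ha') (e0 a ha')
      have m9 := (abs_le.1 m6).1
      rw [m5, m7]
      linarith
    · have ce2 : ContinuousOn (fun x => e x - π) (Icc a b) := ce.sub continuousOn_const
      have m5 := parts hab' ck ck' ce2 ce' dk fun x hx => (de x hx).sub_const π
      have m6 := abs_int_mul_le (B := π) hab' ck' ce2 fun x hx => by
        rw [abs_le]
        constructor
        · linarith [e0 x hx]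
        · linarith [e1 x hx]
      have m8 : k a * (e a - π) = 0 := by
        rcases h2 with h | h <;> rw [h]
        · rw [zero_mul]
        · rw [sub_self, mul_zero]
      have m9 := (abs_le.1 m6).1
      simp only [h1, sub_self, mul_zero, m8] at m5
      rw [m5]
      linarith
  have ike : IntervalIntegrable (fun x => k x * e' x) volume a b :=
    (ck.mul ce').intervalIntegrable_of_Icc hab'
  have ik : IntervalIntegrable k volume a b := ck.intervalIntegrable_of_Icc hab'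
  have m1 : ∫ x in a..b, (-(w₀ / 4) * k x + -(μ / 2) * (k x * e' x)) ≤
      ∫ x in a..b, k x * g x := by
    refine intervalIntegral.integral_mono_on hab' ((ik.const_mul _).add (ike.const_mul _))
      ((ck.mul cg).intervalIntegrable_of_Icc hab') fun x hx => ?_
    have h1 := mul_le_mul_of_nonneg_left (hO x hx) (k0 x hx)
    linarith
  rw [intervalIntegral.integral_add (ik.const_mul _) (ike.const_mul _),
    intervalIntegral.integral_const_mul, intervalIntegral.integral_const_mul] at m1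
  have m2 : (μ + w₀) / 2 * (∫ x in a..b, k x * e' x) ≤
      (μ + w₀) / 2 * (π * ∫ x in a..b, |k' x|) :=
    mul_le_mul_of_nonneg_left key (by linarith)
  have m3 : (μ + w₀) / 2 * (π * ∫ x in a..b, |k' x|) =
      (μ + w₀) / 2 * π * ∫ x in a..b, |k' x| := by ring
  rw [m3] at m2
  have m4 : (μ + w₀) / 2 * (∫ x in a..b, k x * e' x) =
      μ / 2 * (∫ x in a..b, k x * e' x) + w₀ / 2 * (∫ x in a..b, k x * e' x) := by ring
  rw [m4] at m2
  linarith

/-- the constant -/
noncomputable def Cst (w₀ M μ : ℝ) : ℝ :=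
  w₀ * π / 2 + (M + w₀) * π / 4 + w₀ * π + (μ + w₀) / 2 * π

/-- every arc -/
theorem arc {a b w₀ M μ : ℝ} (hab : a < b) (hL : b - a ≤ 2 * π) (hw₀ : 0 ≤ w₀) (hμ : 0 ≤ μ + w₀)
    {e e' k k' v v' g : ℝ → ℝ}
    (ce : ContinuousOn e (Icc a b)) (ce' : ContinuousOn e' (Icc a b))
    (ck : ContinuousOn k (Icc a b)) (ck' : ContinuousOn k' (Icc a b))
    (cv : ContinuousOn v (Icc a b)) (cv' : ContinuousOn v' (Icc a b))
    (cg : ContinuousOn g (Icc a b))
    (de : ∀ x ∈ Ioo a b, HasDerivAt e (e' x) x) (dk : ∀ x ∈ Ioo a b, HasDerivAt k (k' x) x)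
    (dv : ∀ x ∈ Ioo a b, HasDerivAt v (v' x) x)
    (k0 : ∀ x ∈ Icc a b, 0 ≤ k x)
    (e0 : ∀ x ∈ Icc a b, 0 ≤ e x) (e1 : ∀ x ∈ Icc a b, e x ≤ π)
    (vM : ∀ x ∈ Icc a b, |v x| ≤ M)
    (hM : ∀ x ∈ Icc a b, ∀ s : ℝ, 2 * |s| ≤ e x → 2 * |s| ≤ π - e x →
      v' x * s + v x * (e' x / 2 - 1 / 4) ≤ g x)
    (hS : ∀ x ∈ Icc a b, 0 ≤ (v x - w₀) * (e' x - 1 / 4))
    (hO : ∀ x ∈ Icc a b, -(w₀ / 4) - μ / 2 * e' x ≤ g x)
    (ha : k a = 0 ∨ e a = 0 ∨ e a = π) (hb : k b = 0 ∨ e b = 0 ∨ e b = π) :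
    0 ≤ (∫ x in a..b, k x * g x) - w₀ / 2 * (∫ x in a..b, k x * e' x) +
      w₀ / 4 * (∫ x in a..b, k x) + Cst w₀ M μ * ∫ x in a..b, |k' x| := by
  have hπ := Real.pi_pos
  have hab' := hab.le
  have ha' : a ∈ Icc a b := left_mem_Icc.2 hab'
  have hM0 : 0 ≤ M := (abs_nonneg _).trans (vM a ha')
  have hJ0 : 0 ≤ ∫ x in a..b, |k' x| :=
    intervalIntegral.integral_nonneg hab' fun x _ => abs_nonneg _
  by_cases hP : e a = 0 ∧ e b = π
  · have h := arc_P hab hL hw₀ ce ce' ck ck' cv cv' cg de dk dv k0 e0 e1 vM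
      (fun x hx => hM x (Ioo_subset_Icc_self hx)) (fun x hx => hS x (Ioo_subset_Icc_self hx))
      hP.1 hP.2
    have h2 : 0 ≤ (μ + w₀) / 2 * π * ∫ x in a..b, |k' x| :=
      mul_nonneg (mul_nonneg (by linarith) hπ.le) hJ0
    unfold Cst
    rw [add_mul]
    linarith
  · have hend : (k b = 0 ∨ e b = 0) ∨ (e b = π ∧ (k a = 0 ∨ e a = π)) := by
      rcases hb with h | h | h
      · exact Or.inl (Or.inl h)
      · exact Or.inl (Or.inr h)
      · refine Or.inr ⟨h, ?_⟩
        rcases ha with h' | h' | h'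
        · exact Or.inl h'
        · exact absurd ⟨h', h⟩ hP
        · exact Or.inr h'
    have h := arc_O hab hw₀ hμ ce ce' ck ck' cg de dk k0 e0 e1 hO hend
    have h2 : 0 ≤ (w₀ * π / 2 + (M + w₀) * π / 4 + w₀ * π) * ∫ x in a..b, |k' x| := by positivity
    unfold Cst
    rw [add_mul]
    linarith

end Pool.Agent.Helper84.EK4
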