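import Pool.Agent.Helper69.EK3.Strip3
set_option autoImplicit false
open Complex MeasureTheory Metric Set
open scoped Real ComplexConjugate

/-!
# Project EK4: the assembly of helper69 (EK3/Strip3) with the cut-off function kept
-/

namespace Pool.Agent.Helper84.EK4

open Pool.Agent.Helper52.EK Pool.Agent.Helper69.EK3

variable {P : (ℂ → ℂ) → ℝ → ℝ → Prop}

/-- The assembly (Strip3 of helper69) with the cut-off function, without a sign condition. -/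
theorem strip3_chi {k₂ lam D : ℝ} (hlam : 0 ≤ lam) (hk₂ : lam ≤ k₂)
    {T : ℂ → ℂ → ℝ → ℝ → ℝ}
    (hTc : ContinuousOn (fun p : ℂ × ℂ × ℝ × ℝ => T p.1 p.2.1 p.2.2.1 p.2.2.2) {p | p.1 ≠ 0})
    (hTm : ∀ (X Y : ℂ) (s c : ℝ), T (conj X) (conj Y) s c = T X Y s (-c))
    {N : ℂ → ℂ → ℝ → ℝ} {K : ℂ → ℂ → ℝ} (hN : IsNull P N K)
    (hp : ∀ (X : ℂ → ℂ) (x₁ x₂ : ℝ), x₁ ≤ x₂ → NiceH X x₁ x₂ → P X x₁ x₂ →
      ∃ ε : ℝ → ℝ, Continuous ε ∧ (∀ ξ, 0 ≤ ε ξ) ∧ ∫ ξ in x₁..x₂, ε ξ ≤ D ∧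
        ∀ ξ ∈ Icc x₁ x₂, ∀ η ∈ Icc (0:ℝ) (π / 2),
          T (X (pt ξ η)) (deriv X (pt ξ η)) (Real.sin η) (Real.cos η) ≤
            k₂ * (1 - (X (pt ξ η)).re) + lam * (‖X (pt ξ η)‖ ^ 2 - (X (pt ξ η)).re) +
              N (X (pt ξ η)) (deriv X (pt ξ η)) η + ε ξ) :
    ∃ k C : ℝ, 0 ≤ k ∧ ∀ (X : ℂ → ℂ) (x₁ x₂ l : ℝ), 1 ≤ l → x₁ + l ≤ x₂ - l → NiceX X x₁ x₂ →
      P X x₁ x₂ → P (mir X) x₁ x₂ → ∃ χ χ₁ χ₂ : ℝ → ℝ, Cut k l x₁ x₂ χ χ₁ χ₂ ∧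
      II x₁ x₂ (fun ξ η => χ ξ *
        T (X (pt ξ η)) (deriv X (pt ξ η)) (Real.sin η) (Real.cos η)) ≤
      lam * II x₁ x₂ (fun ξ η => ‖X (pt ξ η) - 1‖ ^ 2) +
        (k₂ - lam) * (π * ∫ ξ in x₁..x₂, χ ξ * (1 - (X (pt ξ (π / 2))).re)) +
        (∫ ξ in x₁..x₂, χ ξ * (K (X (pt ξ (π / 2))) (deriv X (pt ξ (π / 2))) +
          K (conj (X (pt ξ (π / 2)))) (conj (deriv X (pt ξ (π / 2)))))) +
        C * (1 + II x₁ x₂ (fun ξ η => ‖X (pt ξ η) - 1‖ ^ 2) / l) := by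
  obtain ⟨k, hk, hcut⟩ := exists_cut
  obtain ⟨C₁, hC₁⟩ := both hN hk
  obtain ⟨C₂, hC₂⟩ := both (isNull_lin (P := P)) hk
  refine ⟨k, |C₁| + (k₂ - lam) * |C₂| + π * |D|, hk, fun X x₁ x₂ l hl hx hX hP hP' => ?_⟩
  obtain ⟨χ, χ₁, χ₂, hc⟩ := hcut x₁ x₂ l hl hx
  refine ⟨χ, χ₁, χ₂, hc, ?_⟩
  have hx12 : x₁ ≤ x₂ := by linarith
  have hl0 : 0 < l := by linarith
  have hpi : (0:ℝ) ≤ π / 2 := by positivity
  have b1 := hC₁ X x₁ x₂ l χ χ₁ χ₂ hl hx hc hX hP hP'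
  have b2 := hC₂ X x₁ x₂ l χ χ₁ χ₂ hl hx hc hX hP hP'
  obtain ⟨E, hE⟩ : ∃ E, E = II x₁ x₂ (fun ξ η => ‖X (pt ξ η) - 1‖ ^ 2) := ⟨_, rfl⟩
  rw [← hE] at b1 b2 ⊢
  have hE0 : 0 ≤ E := by
    rw [hE, ← En_add hx12 hX]
    exact add_nonneg (En_nonneg hx12) (En_nonneg hx12)
  -- one half
  have half : ∀ Z : ℂ → ℂ, NiceH Z x₁ x₂ → P Z x₁ x₂ →
      IH x₁ x₂ (π / 2) (fun ξ η => χ ξ *
        T (Z (pt ξ η)) (deriv Z (pt ξ η)) (Real.sin η) (Real.cos η)) ≤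
      (k₂ - lam) * IH x₁ x₂ (π / 2) (fun ξ η => χ ξ * (1 - (Z (pt ξ η)).re)) +
        lam * En Z x₁ x₂ +
        IH x₁ x₂ (π / 2) (fun ξ η => χ ξ * N (Z (pt ξ η)) (deriv Z (pt ξ η)) η) +
        π / 2 * |D| := by
    intro Z hZ hPZ
    obtain ⟨ε, cε, ε0, εD, hε⟩ := hp Z x₁ x₂ hx12 hZ hPZ
    have cT : CH x₁ x₂ (π / 2) (fun ξ η =>
        T (Z (pt ξ η)) (deriv Z (pt ξ η)) (Real.sin η) (Real.cos η)) := by
      have c1 := contH hZ.an.continuousOn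
      have c2 := contH hZ.an.deriv.continuousOn
      have c3 : ContinuousOn (fun p : ℝ × ℝ => Real.sin p.2) (Icc x₁ x₂ ×ˢ Icc 0 (π / 2)) :=
        (Real.continuous_sin.comp continuous_snd).continuousOn
      have c4 : ContinuousOn (fun p : ℝ × ℝ => Real.cos p.2) (Icc x₁ x₂ ×ˢ Icc 0 (π / 2)) :=
        (Real.continuous_cos.comp continuous_snd).continuousOn
      exact hTc.comp (c1.prodMk (c2.prodMk (c3.prodMk c4)))
        fun p hp' => hZ.ne _ (pt_mem_RectH hp'.1 hp'.2)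
    have f1 : CH x₁ x₂ (π / 2) (fun ξ η => (k₂ - lam) * (χ ξ * (1 - (Z (pt ξ η)).re))) :=
      (CH_const _).mul ((CH_xi hc.cont).mul
        (CH_comp hZ.an.continuousOn (W := fun X => 1 - X.re) (by fun_prop)))
    have f2 : CH x₁ x₂ (π / 2) (fun ξ η => lam * ‖Z (pt ξ η) - 1‖ ^ 2) :=
      (CH_const _).mul (CH_comp hZ.an.continuousOn (W := fun X => ‖X - 1‖ ^ 2) (by fun_prop))
    have f3 : CH x₁ x₂ (π / 2) (fun ξ η => χ ξ * N (Z (pt ξ η)) (deriv Z (pt ξ η)) η) :=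
      (CH_xi hc.cont).mul (CH_N hN.cN hZ)
    have f4 : CH x₁ x₂ (π / 2) (fun ξ _ => ε ξ) := CH_xi cε
    have m := IH_mono hx12 hpi ((CH_xi hc.cont).mul cT) (((f1.add f2).add f3).add f4) (by
      intro ξ hξ η hη
      have h1 := hε ξ hξ η hη
      have h2 := mul_le_mul_of_nonneg_left h1 (hc.b01 ξ).1
      refine h2.trans ?_
      obtain ⟨Q, hQ⟩ : ∃ Q, Q = Z (pt ξ η) := ⟨_, rfl⟩
      have hn : ‖Q - 1‖ ^ 2 = ‖Q‖ ^ 2 - 2 * Q.re + 1 := by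
        rw [← normSq_eq_norm_sq, ← normSq_eq_norm_sq, normSq_apply, normSq_apply, sub_re, sub_im,
          one_re, one_im]
        ring
      have h3 : χ ξ * ε ξ ≤ ε ξ := mul_le_of_le_one_left (ε0 ξ) (hc.b01 ξ).2
      have h4 : χ ξ * (lam * ‖Q - 1‖ ^ 2) ≤ lam * ‖Q - 1‖ ^ 2 :=
        mul_le_of_le_one_left (mul_nonneg hlam (sq_nonneg _)) (hc.b01 ξ).2
      have h5 : χ ξ * (k₂ * (1 - Q.re) + lam * (‖Q‖ ^ 2 - Q.re) +
          N Q (deriv Z (pt ξ η)) η + ε ξ) =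
          (k₂ - lam) * (χ ξ * (1 - Q.re)) + χ ξ * (lam * ‖Q - 1‖ ^ 2) +
            χ ξ * N Q (deriv Z (pt ξ η)) η + χ ξ * ε ξ := by
        rw [hn]
        ring
      rw [← hQ, h5]
      linarith)
    rw [IH_add hx12 hpi ((f1.add f2).add f3) f4, IH_add hx12 hpi (f1.add f2) f3,
      IH_add hx12 hpi f1 f2, IH_const_mul, IH_const_mul, IH_xi] at m
    have hD : π / 2 * ∫ ξ in x₁..x₂, ε ξ ≤ π / 2 * |D| :=
      mul_le_mul_of_nonneg_left (εD.trans (le_abs_self D)) hpi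
    refine m.trans ?_
    unfold En
    linarith
  have t1 := half X (NiceX.half hX) hP
  have t2 := half (mir X) (NiceX.mir hX) hP'
  -- the whole strip
  have cTπ : CH x₁ x₂ π (fun ξ η =>
      T (X (pt ξ η)) (deriv X (pt ξ η)) (Real.sin η) (Real.cos η)) := by
    have c1 := contH (h := π) hX.an.continuousOn
    have c2 := contH (h := π) hX.an.deriv.continuousOn
    have c3 : ContinuousOn (fun p : ℝ × ℝ => Real.sin p.2) (Icc x₁ x₂ ×ˢ Icc 0 π) :=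
      (Real.continuous_sin.comp continuous_snd).continuousOn
    have c4 : ContinuousOn (fun p : ℝ × ℝ => Real.cos p.2) (Icc x₁ x₂ ×ˢ Icc 0 π) :=
      (Real.continuous_cos.comp continuous_snd).continuousOn
    exact hTc.comp (c1.prodMk (c2.prodMk (c3.prodMk c4)))
      fun p hp' => hX.ne _ (pt_mem_RectH (h := π) hp'.1 hp'.2)
  have cχT : CH x₁ x₂ π (fun ξ η => χ ξ *
      T (X (pt ξ η)) (deriv X (pt ξ η)) (Real.sin η) (Real.cos η)) := (CH_xi hc.cont).mul cTπ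
  have split := II_split hx12 cχT
  have e3 : IH x₁ x₂ (π / 2) (fun ξ η => χ ξ * T (X (pt ξ (π - η)))
      (deriv X (pt ξ (π - η))) (Real.sin (π - η)) (Real.cos (π - η))) =
      IH x₁ x₂ (π / 2) (fun ξ η => χ ξ *
        T (mir X (pt ξ η)) (deriv (mir X) (pt ξ η)) (Real.sin η) (Real.cos η)) := by
    unfold IH
    refine intervalIntegral.integral_congr fun ξ hξ => ?_
    rw [uIcc_of_le hx12] at hξ
    refine intervalIntegral.integral_congr fun η hη => ?_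
    rw [uIcc_of_le hpi] at hη
    have hm : pt ξ (π - η) ∈ Rect x₁ x₂ := by
      have := mir_mem (pt_mem_RectH hξ hη)
      rwa [conj_pt] at this
    have hd : DifferentiableAt ℂ X (pt ξ (π - η)) := (hX.an _ hm).differentiableAt
    simp only
    rw [mir_pt, mir_deriv_pt hd, hTm, Real.sin_pi_sub, Real.cos_pi_sub]
  rw [e3] at split
  rw [split]
  -- the linear part
  obtain ⟨A, hA⟩ : ∃ A, A = IH x₁ x₂ (π / 2) (fun ξ η => χ ξ * (1 - (X (pt ξ η)).re)) := ⟨_, rfl⟩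
  obtain ⟨A', hA'⟩ : ∃ A', A' = IH x₁ x₂ (π / 2)
      (fun ξ η => χ ξ * (1 - (mir X (pt ξ η)).re)) := ⟨_, rfl⟩
  obtain ⟨S, hS⟩ : ∃ S, S = ∫ ξ in x₁..x₂, χ ξ * (1 - (X (pt ξ (π / 2))).re) := ⟨_, rfl⟩
  have e4 : ∫ ξ in x₁..x₂, χ ξ *
      ((π / 2 * (1 - (X (pt ξ (π / 2))).re) - π ^ 2 / 8 * (deriv X (pt ξ (π / 2))).im) +
      (π / 2 * (1 - (conj (X (pt ξ (π / 2)))).re) -
        π ^ 2 / 8 * (conj (deriv X (pt ξ (π / 2)))).im)) = π * S := by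
    rw [hS, ← intervalIntegral.integral_const_mul]
    refine intervalIntegral.integral_congr fun ξ _ => ?_
    simp only [conj_re, conj_im]
    ring
  rw [e4, ← hA, ← hA'] at b2
  rw [← hS]
  have hEl : 0 ≤ 1 + E / l := by
    have := div_nonneg hE0 hl0.le
    linarith
  have r1 : C₁ * (1 + E / l) ≤ |C₁| * (1 + E / l) :=
    mul_le_mul_of_nonneg_right (le_abs_self C₁) hEl
  have r2 : C₂ * (1 + E / l) ≤ |C₂| * (1 + E / l) :=
    mul_le_mul_of_nonneg_right (le_abs_self C₂) hEl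
  have r3 : π * |D| ≤ π * |D| * (1 + E / l) := by
    have := div_nonneg hE0 hl0.le
    nlinarith [mul_nonneg Real.pi_pos.le (abs_nonneg D)]
  have hEE := En_add hx12 hX
  rw [← hE] at hEE
  rw [← hA] at t1
  rw [← hA'] at t2
  have b1' := (abs_le.1 b1).2
  have b2' := (abs_le.1 b2).2
  have b3 : (k₂ - lam) * (A + A') ≤ (k₂ - lam) * (π * S + |C₂| * (1 + E / l)) :=
    mul_le_mul_of_nonneg_left (by linarith) (by linarith)
  have b4 : lam * (En X x₁ x₂ + En (mir X) x₁ x₂) = lam * E := by rw [hEE]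
  have b5 : (|C₁| + (k₂ - lam) * |C₂| + π * |D|) * (1 + E / l) =
      |C₁| * (1 + E / l) + (k₂ - lam) * (|C₂| * (1 + E / l)) + π * |D| * (1 + E / l) := by
    ring
  have b6 : lam * En X x₁ x₂ + lam * En (mir X) x₁ x₂ = lam * E := by rw [← mul_add, hEE]
  have b7 : (k₂ - lam) * A + (k₂ - lam) * A' = (k₂ - lam) * (A + A') := by ring
  have b8 : (k₂ - lam) * (π * S + |C₂| * (1 + E / l)) =
      (k₂ - lam) * (π * S) + (k₂ - lam) * (|C₂| * (1 + E / l)) := by ring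
  rw [b8] at b3
  rw [b5]
  linarith [t1, t2, b1', b3, b6, b7, r1, r3]

end Pool.Agent.Helper84.EK4
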