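import Mathlib

/-!
# Project EK4: integrals over open subsets of the line, component by component
-/

set_option autoImplicit false

open MeasureTheory Set Filter Topology
open scoped NNReal Real

namespace Pool.Agent.Helper84.EK4

/-- a component of a bounded open set is an open interval with end points outside -/
theorem comp_eq {U : Set ℝ} (hU : IsOpen U) (hb : Bornology.IsBounded U) {x : ℝ} (hx : x ∈ U) :
    ∃ a b, a < b ∧ connectedComponentIn U x = Ioo a b ∧ Ioo a b ⊆ U ∧ a ∉ U ∧ b ∉ U := by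
  set c := connectedComponentIn U x with hc
  have hcU : c ⊆ U := connectedComponentIn_subset U x
  have hxc : x ∈ c := mem_connectedComponentIn hx
  have hpc : IsPreconnected c := isPreconnected_connectedComponentIn
  have hoc : IsOpen c := hU.connectedComponentIn
  have hbc : Bornology.IsBounded c := hb.subset hcU
  have hbb : BddBelow c := hbc.bddBelow
  have hba : BddAbove c := hbc.bddAbove
  have h1 : Ioo (sInf c) (sSup c) ⊆ c := IsConnected.Ioo_csInf_csSup_subset ⟨⟨x, hxc⟩, hpc⟩ hbb hba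
  obtain ⟨ε, hε, hball⟩ := Metric.isOpen_iff.1 hoc x hxc
  have nota : sInf c ∉ c := by
    intro h
    obtain ⟨δ, hδ, hb'⟩ := Metric.isOpen_iff.1 hoc _ h
    have h2 : sInf c - δ / 2 ∈ c := hb' (by
      rw [Metric.mem_ball, Real.dist_eq]
      rw [show sInf c - δ / 2 - sInf c = -(δ / 2) by ring, abs_neg, abs_of_pos (by linarith)]
      linarith)
    have := csInf_le hbb h2
    linarith
  have notb : sSup c ∉ c := by
    intro h
    obtain ⟨δ, hδ, hb'⟩ := Metric.isOpen_iff.1 hoc _ h
    have h2 : sSup c + δ / 2 ∈ c := hb' (by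
      rw [Metric.mem_ball, Real.dist_eq]
      rw [show sSup c + δ / 2 - sSup c = δ / 2 by ring, abs_of_pos (by linarith)]
      linarith)
    have := le_csSup hba h2
    linarith
  have h2 : c ⊆ Ioo (sInf c) (sSup c) := by
    intro y hy
    refine ⟨lt_of_le_of_ne (csInf_le hbb hy) ?_, lt_of_le_of_ne (le_csSup hba hy) ?_⟩
    · intro h
      exact nota (h ▸ hy)
    · intro h
      exact notb (h ▸ hy)
  have hce : c = Ioo (sInf c) (sSup c) := Subset.antisymm h2 h1
  have hxI := h2 hxc
  have hlt : sInf c < sSup c := hxI.1.trans hxI.2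
  refine ⟨sInf c, sSup c, hlt, hce, h1.trans hcU, ?_, ?_⟩
  · intro h
    have h3 : Ico (sInf c) (sSup c) ⊆ U := by
      intro y hy
      rcases eq_or_lt_of_le hy.1 with h' | h'
      · rw [← h']
        exact h
      · exact hcU (h1 ⟨h', hy.2⟩)
    have h4 : Ico (sInf c) (sSup c) ⊆ c :=
      isPreconnected_Ico.subset_connectedComponentIn ⟨hxI.1.le, hxI.2⟩ h3
    exact nota (h4 ⟨le_rfl, hlt⟩)
  · intro h
    have h3 : Ioc (sInf c) (sSup c) ⊆ U := by
      intro y hy
      rcases eq_or_lt_of_le hy.2 with h' | h'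
      · rw [h']
        exact h
      · exact hcU (h1 ⟨hy.1, h'⟩)
    have h4 : Ioc (sInf c) (sSup c) ⊆ c :=
      isPreconnected_Ioc.subset_connectedComponentIn ⟨hxI.1, hxI.2.le⟩ h3
    exact notb (h4 ⟨hlt, le_rfl⟩)

theorem comp_nonneg {U : Set ℝ} (hU : IsOpen U) (hb : Bornology.IsBounded U) {g : ℝ → ℝ}
    (h : ∀ a b, a < b → Ioo a b ⊆ U → a ∉ U → b ∉ U → 0 ≤ ∫ x in a..b, g x) :
    0 ≤ ∫ x in U, g x := by
  by_cases hg : IntegrableOn g U
  swap
  · rw [integral_undef hg]
  set 𝒞 : Set (Set ℝ) := {c | ∃ x ∈ U, c = connectedComponentIn U x} with h𝒞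
  have hop : ∀ c ∈ 𝒞, IsOpen c := by
    rintro c ⟨x, _, rfl⟩
    exact hU.connectedComponentIn
  have hne : ∀ c ∈ 𝒞, c.Nonempty := by
    rintro c ⟨x, hx, rfl⟩
    exact ⟨x, mem_connectedComponentIn hx⟩
  have hdis : 𝒞.PairwiseDisjoint id := by
    rintro c ⟨x, hx, rfl⟩ d ⟨y, hy, rfl⟩ hcd
    rw [Function.onFun, id, id, Set.disjoint_left]
    intro z hz1 hz2
    exact hcd ((connectedComponentIn_eq hz1).trans (connectedComponentIn_eq hz2).symm)
  have hcount : 𝒞.Countable := hdis.countable_of_isOpen hop hne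
  have hun : U = ⋃ c : 𝒞, (c : Set ℝ) := by
    ext x
    constructor
    · intro hx
      rw [mem_iUnion]
      exact ⟨⟨connectedComponentIn U x, x, hx, rfl⟩, mem_connectedComponentIn hx⟩
    · intro hx
      rw [mem_iUnion] at hx
      obtain ⟨⟨c, y, hy, rfl⟩, hxc⟩ := hx
      exact connectedComponentIn_subset U y hxc
  have : Countable 𝒞 := hcount.to_subtype
  have hsum : ∫ x in ⋃ c : 𝒞, (c : Set ℝ), g x = ∑' c : 𝒞, ∫ x in (c : Set ℝ), g x := by
    refine integral_iUnion (fun c => (hop c.1 c.2).measurableSet) ?_ (by rwa [← hun])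
    intro c d hcd
    exact hdis c.2 d.2 fun h' => hcd (Subtype.ext h')
  rw [← hun] at hsum
  rw [hsum]
  refine tsum_nonneg fun c => ?_
  obtain ⟨x, hx, hc⟩ := c.2
  obtain ⟨a, b, hab, he, hs, ha, hb'⟩ := comp_eq hU hb hx
  rw [hc, he, ← integral_Ioc_eq_integral_Ioo, ← intervalIntegral.integral_of_le hab.le]
  exact h a b hab hs ha hb'

end Pool.Agent.Helper84.EK4
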