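import Pool.Agent.Helper84.EK4.LevelArc
import Pool.Agent.Helper84.EK4.Comp
import Pool.Agent.Helper86.EK.E1b
set_option autoImplicit false
open Complex MeasureTheory Metric Set Filter Topology
open scoped Real ComplexConjugate NNReal

/-! Project EK4: the level inequality. -/

namespace Pool.Agent.Helper84.EK4

open Pool.Agent.Helper52.EK

/-- nonnegative integrals over the vertical sections give a nonnegative integral -/
theorem fubini_nonneg {D : Set ℂ} (hD : IsOpen D) (hb : Bornology.IsBounded D) {g : ℂ → ℝ}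
    (h : ∀ τ a b : ℝ, a < b → (∀ θ ∈ Ioo a b, (τ : ℂ) + θ * I ∈ D) → (τ : ℂ) + a * I ∉ D →
      (τ : ℂ) + b * I ∉ D → 0 ≤ ∫ θ in a..b, g ((τ : ℂ) + θ * I)) : 0 ≤ ∫ z in D, g z := by
  have e1 : ∫ z in D, g z = ∫ p in Complex.measurableEquivRealProd.symm ⁻¹' D,
      g (Complex.measurableEquivRealProd.symm p) ∂((volume : Measure ℝ).prod (volume : Measure ℝ)) :=
    (Complex.volume_preserving_equiv_real_prod.symm _ |>.setIntegral_preimage_emb
      (MeasurableEquiv.measurableEmbedding _) _ _).symm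
  have hmS : MeasurableSet (Complex.measurableEquivRealProd.symm ⁻¹' D) :=
    (MeasurableEquiv.measurable _) hD.measurableSet
  rw [e1, ← integral_indicator hmS]
  by_cases hi : Integrable (indicator (Complex.measurableEquivRealProd.symm ⁻¹' D)
      fun p => g (Complex.measurableEquivRealProd.symm p))
      ((volume : Measure ℝ).prod (volume : Measure ℝ))
  swap
  · rw [integral_undef hi]
  rw [integral_prod _ hi]
  refine integral_nonneg fun τ => ?_
  have eS : ∀ θ : ℝ, Complex.measurableEquivRealProd.symm (τ, θ) = (τ : ℂ) + θ * I := fun θ => by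
    rw [← Complex.mk_eq_add_mul_I]
    rfl
  have hc : Continuous fun θ : ℝ => (τ : ℂ) + θ * I := by fun_prop
  have hUo : IsOpen {θ : ℝ | (τ : ℂ) + θ * I ∈ D} := hD.preimage hc
  have e2 : (fun θ : ℝ => indicator (Complex.measurableEquivRealProd.symm ⁻¹' D)
      (fun p => g (Complex.measurableEquivRealProd.symm p)) (τ, θ)) =
      indicator {θ : ℝ | (τ : ℂ) + θ * I ∈ D} fun θ => g ((τ : ℂ) + θ * I) := by
    funext θ
    by_cases hm : (τ : ℂ) + θ * I ∈ D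
    · rw [indicator_of_mem (show θ ∈ {θ : ℝ | (τ : ℂ) + θ * I ∈ D} from hm),
        indicator_of_mem (show (τ, θ) ∈ Complex.measurableEquivRealProd.symm ⁻¹' D by
          rw [mem_preimage, eS]; exact hm), eS]
    · rw [indicator_of_notMem (show θ ∉ {θ : ℝ | (τ : ℂ) + θ * I ∈ D} from hm),
        indicator_of_notMem (show (τ, θ) ∉ Complex.measurableEquivRealProd.symm ⁻¹' D by
          rw [mem_preimage, eS]; exact hm)]
  show 0 ≤ ∫ θ : ℝ, indicator (Complex.measurableEquivRealProd.symm ⁻¹' D)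
      (fun p => g (Complex.measurableEquivRealProd.symm p)) (τ, θ)
  rw [e2, integral_indicator hUo.measurableSet]
  refine comp_nonneg hUo ?_ fun a b hab hs ha hb' => h τ a b hab (fun θ hθ => hs hθ) ha hb'
  obtain ⟨R, hR⟩ := hb.subset_closedBall (0:ℂ)
  refine (isBounded_Icc (-R) R).subset fun θ hθ => ?_
  have h1 := hR hθ
  rw [mem_closedBall_zero_iff] at h1
  have h2 := (abs_im_le_norm ((τ : ℂ) + θ * I)).trans h1
  have h3 : ((τ : ℂ) + θ * I).im = θ := by simp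
  rw [h3] at h2
  exact abs_le.1 h2

/-- the level inequality -/
theorem level {w₀ M μ : ℝ} (hw₀ : 0 ≤ w₀) (hμ : 0 ≤ μ + w₀) {W Wx Wy We : ℂ → ℝ → ℝ}
    (hW : C1g W Wx Wy We)
    {A : ℂ → ℝ} {X : ℂ → ℂ} {x₁ x₂ : ℝ} (hx : x₁ ≤ x₂) (hX : NiceX X x₁ x₂)
    (hA : ContinuousOn A (Rect x₁ x₂)) (h : LvHyp w₀ M μ W Wx Wy We A X x₁ x₂)
    (hi : InjF X x₁ x₂)
    {χ χ₁ : ℝ → ℝ} (hχ : ∀ ξ, HasDerivAt χ (χ₁ ξ) ξ) (hχ₁ : Continuous χ₁)
    (χ0 : ∀ ξ, 0 ≤ χ ξ) (e1 : χ x₁ = 0) (e2 : χ x₂ = 0) :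
    0 ≤ II x₁ x₂ (fun ξ η => Hf w₀ (Cst w₀ M μ) A χ χ₁ X (pt ξ η)) := by
  obtain ⟨F, hF, hF', hinj⟩ := hi
  have hcX : ContinuousOn X (Rect x₁ x₂) := hX.an.continuousOn
  have cχ : Continuous χ := continuous_iff_continuousAt.2 fun ξ => (hχ ξ).continuousAt
  have cχr : ContinuousOn (fun ω : ℂ => χ ω.re) (Rect x₁ x₂) :=
    (cχ.comp continuous_re).continuousOn
  have cχ₁r : ContinuousOn (fun ω : ℂ => χ₁ ω.re) (Rect x₁ x₂) :=
    (hχ₁.comp continuous_re).continuousOn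
  have cre : ContinuousOn (fun ω => (X ω).re) (Rect x₁ x₂) := continuous_re.comp_continuousOn hcX
  have cim : ContinuousOn (fun ω => (X ω).im) (Rect x₁ x₂) := continuous_im.comp_continuousOn hcX
  have cH : ContinuousOn (Hf w₀ (Cst w₀ M μ) A χ χ₁ X) (Rect x₁ x₂) := by
    unfold Hf
    exact ((cχr.mul hA).add (continuousOn_const.mul (cχr.mul ((hcX.norm.pow 2).sub cre)))).add
      (continuousOn_const.mul (cχ₁r.abs.mul cim.abs))
  rw [Pool.Agent.Helper86.EK.II_eq hx cH]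
  obtain ⟨U, hU⟩ : ∃ U, U = Ioo x₁ x₂ ×ℂ Ioo 0 π := ⟨_, rfl⟩
  have hUo : IsOpen U := by rw [hU]; exact isOpen_int x₁ x₂
  have hUR : U ⊆ Rect x₁ x₂ := by rw [hU]; exact int_sub x₁ x₂
  have hiF : InjOn F (Rect x₁ x₂) := fun z hz w hw hzw => hinj hz hw (by simp only [hzw])
  have hiU : InjOn F U := hiF.mono hUR
  have hst : ∀ ω ∈ U, HasStrictDerivAt F (2 * X ω) ω := fun ω hω => by
    have := (hF ω (hUR hω)).hasStrictDerivAt
    rwa [(hF' ω (hUR hω)).deriv] at this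
  have hne : ∀ ω ∈ U, 2 * X ω ≠ 0 := fun ω hω =>
    mul_ne_zero two_ne_zero (hX.ne ω (hUR hω))
  obtain ⟨hDo, hG⟩ := inv_on hUo hst hne hiU
  have hleft : ∀ ω ∈ U, Function.invFunOn F U (F ω) = ω := fun ω hω =>
    hiU (Function.invFunOn_mem ⟨ω, hω, rfl⟩) hω (Function.invFunOn_eq ⟨ω, hω, rfl⟩)
  have hbd : Bornology.IsBounded (F '' U) :=
    (((isCompact_Rect x₁ x₂).image_of_continuousOn hF.continuousOn).isBounded).subset
      (image_mono hUR)
  have hpos : 0 ≤ ∫ z in F '' U, (fun ω => Hf w₀ (Cst w₀ M μ) A χ χ₁ X ω / (4 * ‖X ω‖ ^ 2))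
      (Function.invFunOn F U z) := by
    refine fubini_nonneg hDo hbd fun τ a b hab hs ha hb => ?_
    rw [hU] at hs ha hb ⊢
    exact level_arc hw₀ hμ hW hX hA h hF hF' hinj hχ hχ₁ χ0 e1 e2 hab hs ha hb
  have hcv := integral_image_eq_integral_abs_det_fderiv_smul volume hUo.measurableSet
    (f := F) (f' := fun ω => (2 * X ω) • (1 : ℂ →L[ℝ] ℂ)) (fun ω hω => by
      have h1 := (hF' ω (hUR hω)).hasFDerivAt.restrictScalars ℝ
      refine (h1.congr_fderiv ?_).hasFDerivWithinAt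
      ext v
      simp [mul_comm]) hiU
    (fun z => (fun ω => Hf w₀ (Cst w₀ M μ) A χ χ₁ X ω / (4 * ‖X ω‖ ^ 2))
      (Function.invFunOn F U z))
  rw [hcv] at hpos
  rw [← hU]
  refine hpos.trans_eq (setIntegral_congr_fun hUo.measurableSet fun ω hω => ?_)
  simp only
  rw [Pool.Agent.Helper86.EK.det_cmul, hleft ω hω, norm_mul, smul_eq_mul]
  have h1 : ‖X ω‖ ≠ 0 := norm_ne_zero_iff.2 (hX.ne ω (hUR hω))
  simp only [Complex.norm_ofNat]
  have h2 : (2 * ‖X ω‖) ^ 2 = 4 * ‖X ω‖ ^ 2 := by ring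
  have h3 : 4 * ‖X ω‖ ^ 2 ≠ 0 := mul_ne_zero four_ne_zero (pow_ne_zero 2 h1)
  rw [h2, mul_div_cancel₀ _ h3]

end Pool.Agent.Helper84.EK4
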