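import Pool.Agent.Helper84.EK4.Chi
import Pool.Agent.Helper84.EK4.Level
set_option autoImplicit false
open Complex MeasureTheory Metric Set
open scoped Real ComplexConjugate

/-!
# Project EK4: from the pointwise level certificate to the integrated inequality
-/

namespace Pool.Agent.Helper84.EK4

open Pool.Agent.Helper52.EK Pool.Agent.Helper69.EK3

variable {P : (ℂ → ℂ) → ℝ → ℝ → Prop}

theorem arcsin_sin_left {η : ℝ} (h : η ∈ Icc (0:ℝ) (π / 2)) : Real.arcsin (Real.sin η) = η :=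
  Real.arcsin_sin (by linarith [h.1, Real.pi_pos]) h.2

theorem arcsin_sin_right {η : ℝ} (h : η ∈ Icc (π / 2) π) :
    Real.arcsin (Real.sin η) = π - η := by
  rw [← Real.sin_pi_sub]
  exact Real.arcsin_sin (by linarith [h.2, Real.pi_pos]) (by linarith [h.1])

theorem arcsin_sin_ge {η t : ℝ} (h0 : 0 ≤ η) (h1 : η ≤ π) (h2 : t ≤ η) (h3 : t ≤ π - η) :
    t ≤ Real.arcsin (Real.sin η) := by
  rcases le_total η (π / 2) with h | h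
  · rwa [arcsin_sin_left ⟨h0, h⟩]
  · rwa [arcsin_sin_right ⟨h, h1⟩]

theorem arcsin_sin_nonneg {η : ℝ} (h0 : 0 ≤ η) (h1 : η ≤ π) : 0 ≤ Real.arcsin (Real.sin η) :=
  arcsin_sin_ge h0 h1 h0 (by linarith)

/-- the smallest function allowed in the level inequality -/
noncomputable def Bm (w₀ μ : ℝ) (W Wx Wy We : ℂ → ℝ → ℝ) (X Y : ℂ) (h η : ℝ) : ℝ :=
  max (-(W X η * (‖X‖ ^ 2 - X.re)) + h * |dL Wx Wy We X Y η|) (-(w₀ * ‖X‖ ^ 2) - μ * X.re)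

theorem Bm_M {w₀ μ : ℝ} {W Wx Wy We : ℂ → ℝ → ℝ} {X Y : ℂ} {h η s : ℝ} (hs : 2 * |s| ≤ h) :
    0 ≤ Bm w₀ μ W Wx Wy We X Y h η + W X η * (‖X‖ ^ 2 - X.re) +
      2 * s * dL Wx Wy We X Y η := by
  have h1 := le_max_left (-(W X η * (‖X‖ ^ 2 - X.re)) + h * |dL Wx Wy We X Y η|)
    (-(w₀ * ‖X‖ ^ 2) - μ * X.re)
  have h2 : |2 * s * dL Wx Wy We X Y η| ≤ h * |dL Wx Wy We X Y η| := by
    rw [abs_mul, abs_mul, abs_two]
    exact mul_le_mul_of_nonneg_right hs (abs_nonneg _)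
  have h3 := neg_abs_le (2 * s * dL Wx Wy We X Y η)
  unfold Bm
  linarith

theorem Bm_O {w₀ μ : ℝ} {W Wx Wy We : ℂ → ℝ → ℝ} {X Y : ℂ} {h η : ℝ} :
    0 ≤ Bm w₀ μ W Wx Wy We X Y h η + w₀ * ‖X‖ ^ 2 + μ * X.re := by
  have h1 := le_max_right (-(W X η * (‖X‖ ^ 2 - X.re)) + h * |dL Wx Wy We X Y η|)
    (-(w₀ * ‖X‖ ^ 2) - μ * X.re)
  unfold Bm
  linarith

/-- the mirror symmetry of the derivatives -/
theorem dL_mir {W Wx Wy We : ℂ → ℝ → ℝ} (hW : C1g W Wx Wy We)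
    (hm : ∀ X η, W (conj X) (π - η) = W X η) (X Y : ℂ) (η : ℝ) :
    dL Wx Wy We (conj X) (conj Y) (π - η) = -dL Wx Wy We X Y η := by
  have h1 := hW.hd X η
  have hl : HasFDerivAt (fun p : ℂ × ℝ => (conj p.1, π - p.2))
      (((conjCLE : ℂ →L[ℝ] ℂ).comp (ContinuousLinearMap.fst ℝ ℂ ℝ)).prod
        (-ContinuousLinearMap.snd ℝ ℂ ℝ)) (X, η) := by
    refine HasFDerivAt.prodMk ?_ ?_
    · exact ((conjCLE : ℂ →L[ℝ] ℂ).comp (ContinuousLinearMap.fst ℝ ℂ ℝ)).hasFDerivAt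
    · exact (ContinuousLinearMap.snd ℝ ℂ ℝ).hasFDerivAt.const_sub π
  have h2 := HasFDerivAt.comp (X, η) (hW.hd (conj X) (π - η)) hl
  have e : (fun p : ℂ × ℝ => W p.1 p.2) ∘ (fun p : ℂ × ℝ => (conj p.1, π - p.2)) =
      fun p : ℂ × ℝ => W p.1 p.2 := by
    funext p
    exact hm p.1 p.2
  rw [e] at h2
  have h3 := h1.unique h2
  have a1 := congrArg (fun L => L ((1:ℂ), (0:ℝ))) h3
  have a2 := congrArg (fun L => L (I, (0:ℝ))) h3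
  have a3 := congrArg (fun L => L ((0:ℂ), (1:ℝ))) h3
  simp only [add_apply, smul_apply, ContinuousLinearMap.comp_apply, ContinuousLinearMap.prod_apply,
    ContinuousLinearMap.coe_fst', ContinuousLinearMap.coe_snd', reCLM_apply, imCLM_apply,
    smul_eq_mul, neg_apply, ContinuousLinearEquiv.coe_coe, conjCLE_apply, one_re,
    one_im, I_re, I_im, map_one, conj_I, neg_re, neg_im, map_zero, zero_re, zero_im, mul_one,
    mul_zero, add_zero, zero_add, neg_zero, mul_neg] at a1 a2 a3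
  unfold dL
  rw [norm_conj, ← map_div₀, conj_im, conj_re, conj_re, a1, a2, a3]
  ring

theorem Bm_mir {w₀ μ : ℝ} {W Wx Wy We : ℂ → ℝ → ℝ} (hW : C1g W Wx Wy We)
    (hm : ∀ X η, W (conj X) (π - η) = W X η) (X Y : ℂ) (h η : ℝ) :
    Bm w₀ μ W Wx Wy We (conj X) (conj Y) h (π - η) = Bm w₀ μ W Wx Wy We X Y h η := by
  unfold Bm
  rw [hm, norm_conj, conj_re, dL_mir hW hm, abs_neg]

/-- the modified functional -/
noncomputable def TT (w₀ μ : ℝ) (W Wx Wy We : ℂ → ℝ → ℝ) (T : ℂ → ℂ → ℝ → ℝ → ℝ) (X Y : ℂ)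
    (s c : ℝ) : ℝ :=
  T X Y s c + (Bm w₀ μ W Wx Wy We X Y (Real.arcsin s) (Real.arccos c) +
    w₀ * (‖X‖ ^ 2 - X.re))

theorem TT_mir {w₀ μ : ℝ} {W Wx Wy We : ℂ → ℝ → ℝ} (hW : C1g W Wx Wy We)
    (hm : ∀ X η, W (conj X) (π - η) = W X η) {T : ℂ → ℂ → ℝ → ℝ → ℝ}
    (hTm : ∀ (X Y : ℂ) (s c : ℝ), T (conj X) (conj Y) s c = T X Y s (-c)) (X Y : ℂ) (s c : ℝ) :
    TT w₀ μ W Wx Wy We T (conj X) (conj Y) s c = TT w₀ μ W Wx Wy We T X Y s (-c) := by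
  have e : Real.arccos c = π - Real.arccos (-c) := by
    rw [Real.arccos_neg]
    ring
  unfold TT
  rw [hTm, e, Bm_mir hW hm, norm_conj, conj_re]

theorem Bm_cont {w₀ μ : ℝ} {W Wx Wy We : ℂ → ℝ → ℝ} (hW : C1g W Wx Wy We) :
    ContinuousOn (fun p : ℂ × ℂ × ℝ × ℝ => Bm w₀ μ W Wx Wy We p.1 p.2.1 p.2.2.1 p.2.2.2)
      {p | p.1 ≠ 0} := by
  have c1 : ContinuousOn (fun p : ℂ × ℂ × ℝ × ℝ => p.1) {p | p.1 ≠ 0} := by fun_prop
  have c2 : ContinuousOn (fun p : ℂ × ℂ × ℝ × ℝ => p.2.1) {p | p.1 ≠ 0} := by fun_prop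
  have cq : ContinuousOn (fun p : ℂ × ℂ × ℝ × ℝ => p.2.1 / p.1) {p | p.1 ≠ 0} :=
    c2.div c1 fun p hp => hp
  have cqr := continuous_re.comp_continuousOn cq
  have cqi := continuous_im.comp_continuousOn cq
  have cX : Continuous (fun p : ℂ × ℂ × ℝ × ℝ => (p.1, p.2.2.2)) := by fun_prop
  have cW := (hW.cont.comp cX).continuousOn (s := {p : ℂ × ℂ × ℝ × ℝ | p.1 ≠ 0})
  have cx := (hW.cx.comp cX).continuousOn (s := {p : ℂ × ℂ × ℝ × ℝ | p.1 ≠ 0})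
  have cy := (hW.cy.comp cX).continuousOn (s := {p : ℂ × ℂ × ℝ × ℝ | p.1 ≠ 0})
  have ce := (hW.ce.comp cX).continuousOn (s := {p : ℂ × ℂ × ℝ × ℝ | p.1 ≠ 0})
  have cn : ContinuousOn (fun p : ℂ × ℂ × ℝ × ℝ => ‖p.1‖ ^ 2) {p | p.1 ≠ 0} := by fun_prop
  have cr : ContinuousOn (fun p : ℂ × ℂ × ℝ × ℝ => p.1.re) {p | p.1 ≠ 0} := by fun_prop
  have ch : ContinuousOn (fun p : ℂ × ℂ × ℝ × ℝ => p.2.2.1) {p | p.1 ≠ 0} := by fun_prop
  have cd : ContinuousOn (fun p : ℂ × ℂ × ℝ × ℝ => dL Wx Wy We p.1 p.2.1 p.2.2.2)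
      {p | p.1 ≠ 0} := by
    unfold dL
    exact (cn.mul ((cx.mul cqi).sub (cy.mul cqr))).sub (ce.mul cr)
  unfold Bm
  exact ((cW.mul (cn.sub cr)).neg.add (ch.mul cd.abs)).sup
    ((continuousOn_const.mul cn).neg.sub (continuousOn_const.mul cr))

theorem TT_cont {w₀ μ : ℝ} {W Wx Wy We : ℂ → ℝ → ℝ} (hW : C1g W Wx Wy We)
    {T : ℂ → ℂ → ℝ → ℝ → ℝ}
    (hTc : ContinuousOn (fun p : ℂ × ℂ × ℝ × ℝ => T p.1 p.2.1 p.2.2.1 p.2.2.2) {p | p.1 ≠ 0}) :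
    ContinuousOn (fun p : ℂ × ℂ × ℝ × ℝ => TT w₀ μ W Wx Wy We T p.1 p.2.1 p.2.2.1 p.2.2.2)
      {p | p.1 ≠ 0} := by
  unfold TT
  refine hTc.add (ContinuousOn.add ?_ (by fun_prop))
  have h1 : Continuous (fun p : ℂ × ℂ × ℝ × ℝ =>
      (p.1, p.2.1, Real.arcsin p.2.2.1, Real.arccos p.2.2.2)) := by
    have := Real.continuous_arcsin
    have := Real.continuous_arccos
    fun_prop
  exact (Bm_cont hW).comp h1.continuousOn fun p hp => hp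

end Pool.Agent.Helper84.EK4
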