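import Pool.Agent.Helper84.EK4.Defs
import Pool.Agent.Helper84.EK4.Arc
set_option autoImplicit false
open Complex MeasureTheory Metric Set Filter Topology
open scoped Real ComplexConjugate NNReal

/-! Project EK4: the inequality on one component of a level. -/

namespace Pool.Agent.Helper84.EK4

open Pool.Agent.Helper52.EK

/-- inverse of an injective analytic function -/
theorem inv_on {F f' : ℂ → ℂ} {U : Set ℂ} (hU : IsOpen U)
    (hs : ∀ ω ∈ U, HasStrictDerivAt F (f' ω) ω) (hne : ∀ ω ∈ U, f' ω ≠ 0) (hi : InjOn F U) :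
    IsOpen (F '' U) ∧ ∀ z ∈ F '' U, Function.invFunOn F U z ∈ U ∧
      F (Function.invFunOn F U z) = z ∧
      HasDerivAt (Function.invFunOn F U) (f' (Function.invFunOn F U z))⁻¹ z := by
  have hmap : ∀ ω ∈ U, map F (𝓝 ω) = 𝓝 (F ω) := fun ω hω =>
    (hs ω hω).map_nhds_eq (hne ω hω)
  refine ⟨?_, fun z hz => ?_⟩
  · rw [isOpen_iff_mem_nhds]
    rintro z ⟨ω, hω, rfl⟩
    rw [← hmap ω hω]
    exact image_mem_map (hU.mem_nhds hω)
  · set G := Function.invFunOn F U with hG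
    have h1 : G z ∈ U := Function.invFunOn_mem hz
    have h2 : F (G z) = z := Function.invFunOn_eq hz
    have hleft : ∀ ω ∈ U, G (F ω) = ω := fun ω hω =>
      hi (Function.invFunOn_mem ⟨ω, hω, rfl⟩) hω (Function.invFunOn_eq ⟨ω, hω, rfl⟩)
    refine ⟨h1, h2, ?_⟩
    have hc : ContinuousAt G z := by
      have h3 : map F (𝓝 (G z)) = 𝓝 z := by rw [hmap _ h1, h2]
      unfold ContinuousAt
      nth_rewrite 1 [← h3]
      rw [tendsto_map'_iff]
      have h4 : G ∘ F =ᶠ[𝓝 (G z)] id := by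
        filter_upwards [hU.mem_nhds h1] with ω hω
        exact hleft ω hω
      exact Tendsto.congr' h4.symm tendsto_id
    refine HasDerivAt.of_local_left_inverse hc (hs _ h1).hasDerivAt (hne _ h1) ?_
    have hD : F '' U ∈ 𝓝 z := by
      rw [← h2, ← hmap _ h1]
      exact image_mem_map (hU.mem_nhds h1)
    filter_upwards [hD] with y hy
    exact Function.invFunOn_eq hy

/-- a curve with bounded derivative extends to the closed interval -/
theorem ext_curve {c c' : ℝ → ℂ} {a b K : ℝ} (hc : ∀ θ ∈ Ioo a b, HasDerivAt c (c' θ) θ)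
    (hK : ∀ θ ∈ Ioo a b, ‖c' θ‖ ≤ K) : ∃ d : ℝ → ℂ, Continuous d ∧ ∀ θ ∈ Ioo a b, d θ = c θ := by
  have h1 : LipschitzOnWith ⟨max K 0, le_max_right _ _⟩ c (Ioo a b) := by
    refine (convex_Ioo a b).lipschitzOnWith_of_nnnorm_hasDerivWithin_le
      (fun x hx => (hc x hx).hasDerivWithinAt) fun x hx => ?_
    rw [← NNReal.coe_le_coe, coe_nnnorm]
    exact (hK x hx).trans (le_max_left _ _)
  obtain ⟨d, hd, he⟩ := h1.extend_finite_dimension
  exact ⟨d, hd.continuous, fun θ hθ => (he hθ).symm⟩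

theorem isClosed_Rect (x₁ x₂ : ℝ) : IsClosed (Rect x₁ x₂) :=
  isClosed_Icc.reProdIm isClosed_Icc

theorem isCompact_Rect (x₁ x₂ : ℝ) : IsCompact (Rect x₁ x₂) :=
  isCompact_Icc.reProdIm isCompact_Icc

theorem isOpen_int (x₁ x₂ : ℝ) : IsOpen (Ioo x₁ x₂ ×ℂ Ioo 0 π) :=
  isOpen_Ioo.reProdIm isOpen_Ioo

theorem int_sub (x₁ x₂ : ℝ) : (Ioo x₁ x₂ ×ℂ Ioo 0 π) ⊆ Rect x₁ x₂ := fun _ h =>
  ⟨Ioo_subset_Icc_self h.1, Ioo_subset_Icc_self h.2⟩

theorem not_int {x₁ x₂ : ℝ} {ω : ℂ} (h : ω ∈ Rect x₁ x₂) (h' : ω ∉ Ioo x₁ x₂ ×ℂ Ioo 0 π) :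
    ω.re = x₁ ∨ ω.re = x₂ ∨ ω.im = 0 ∨ ω.im = π := by
  obtain ⟨⟨h1, h2⟩, h3, h4⟩ := h
  by_contra hn
  push Not at hn
  obtain ⟨n1, n2, n3, n4⟩ := hn
  exact h' ⟨⟨lt_of_le_of_ne h1 (Ne.symm n1), lt_of_le_of_ne h2 n2⟩,
    lt_of_le_of_ne h3 (Ne.symm n3), lt_of_le_of_ne h4 n4⟩

end Pool.Agent.Helper84.EK4
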