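import Pool.Agent.Helper52.EK.Defs
set_option autoImplicit false
open Complex MeasureTheory Metric Set
open scoped Real ComplexConjugate

/-! Project EK4 (level certificates): univalent primitives. -/

namespace Pool.Agent.Helper84.EK4

open Pool.Agent.Helper52.EK

/-- `2 X` is the derivative of a function which is univalent modulo `2 π i` -/
def InjF (X : ℂ → ℂ) (x₁ x₂ : ℝ) : Prop :=
  ∃ F : ℂ → ℂ, AnalyticOnNhd ℂ F (Rect x₁ x₂) ∧ (∀ ω ∈ Rect x₁ x₂, HasDerivAt F (2 * X ω) ω) ∧
    Set.InjOn (fun ω => Complex.exp (F ω)) (Rect x₁ x₂)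

end Pool.Agent.Helper84.EK4
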