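import Pool.Agent.Helper84.EK4.StripLevel
import Pool.Agent.Helper50.EK4.InjF
import Pool.Agent.Helper69.EK3.Disc
set_option autoImplicit false
open Complex MeasureTheory Metric Set
open scoped Real ComplexConjugate

/-!
# Project EK4: the bound for one target from a level certificate
-/

namespace Pool.Agent.Helper84.EK4

open Pool.Agent.Helper39.Area Pool.Agent.Helper52.EK Pool.Agent.Helper69.EK3

/-- **The bound for one target from a level certificate** (pointwise form with an integrable error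
for the functions of the class `P`). -/
theorem K_level {P : (ℂ → ℂ) → ℝ → ℝ → Prop}
    (hP : ∀ (β : ℂ → ℂ) (R a : ℝ), ExtR β R → 0 < a → a < 1 → Real.log (tau a) + 1 ≤ -1 →
      P (Xf β a) (Real.log (tau a) + 1) (-1) ∧ P (mir (Xf β a)) (Real.log (tau a) + 1) (-1))
    {k₂ w₀ D M μ κ L : ℝ} (hw₀ : 0 ≤ w₀) (hk₂ : w₀ ≤ k₂) (hμ : 0 ≤ μ + w₀) (hκ : k₂ < 2 * κ)
    {G : ℂ → ℂ} (hG : GLip G L) (hGc : ∀ m, G (conj m) = conj (G m))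
    {Nl : ℂ → ℂ → ℝ → ℝ} {Kl : ℂ → ℂ → ℝ} (hN : IsNull P Nl Kl)
    {V Vx Vy Ve : ℂ → ℝ → ℝ} (hV : C1g V Vx Vy Ve)
    (hVm : ∀ X η, V (conj X) (π - η) = V X η)
    (hVb : ∀ X, ∀ η ∈ Icc (0:ℝ) (π / 2), |V X η| ≤ M)
    (hVs : ∀ X, ∀ η ∈ Icc (0:ℝ) (π / 2), 0 ≤ (V X η - w₀) * (2 * X.re - ‖X‖ ^ 2))
    (hp : ∀ (X : ℂ → ℂ) (x₁ x₂ : ℝ), x₁ ≤ x₂ → NiceH X x₁ x₂ → P X x₁ x₂ →
      ∃ ε : ℝ → ℝ, Continuous ε ∧ (∀ ξ, 0 ≤ ε ξ) ∧ ∫ ξ in x₁..x₂, ε ξ ≤ D ∧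
        ∀ ξ ∈ Icc x₁ x₂, ∀ η ∈ Icc (0:ℝ) (π / 2),
          TG G (X (pt ξ η)) (deriv X (pt ξ η)) (Real.sin η) (Real.cos η) +
              η * |dL Vx Vy Ve (X (pt ξ η)) (deriv X (pt ξ η)) η| ≤
            k₂ * (1 - (X (pt ξ η)).re) + V (X (pt ξ η)) η * (‖X (pt ξ η)‖ ^ 2 - (X (pt ξ η)).re) +
              Nl (X (pt ξ η)) (deriv X (pt ξ η)) η + ε ξ ∧
          TG G (X (pt ξ η)) (deriv X (pt ξ η)) (Real.sin η) (Real.cos η) ≤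
            k₂ * (1 - (X (pt ξ η)).re) + w₀ * ‖X (pt ξ η)‖ ^ 2 + μ * (X (pt ξ η)).re +
              Nl (X (pt ξ η)) (deriv X (pt ξ η)) η + ε ξ)
    {Ec Ex Ey W Wx Wy : ℂ → ℝ} (hW : C1f W Wx Wy) (hE : C1f Ec Ex Ey)
    (hK : ∀ X Y : ℂ, X ≠ 0 → Kl X Y + Kl (conj X) (conj Y) =
      - Ec X + (Wx X * Y.re + Wy X * Y.im))
    (hE0 : ∀ X : ℂ, ‖X‖ ≤ 1 → 0 ≤ Ec X) :
    ∃ C a₀ : ℝ, a₀ < 1 ∧ ∀ (β : ℂ → ℂ) (R a : ℝ), ExtR β R → a₀ < a → a < 1 →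
      Kf (wf G β) 1 (-1) (Real.log a) ≤ κ * Real.log (‖N β a‖ / (1 - a ^ 2)) + C := by
  have hGcont : Continuous G := Pool.Agent.Helper44.EK.GLip.continuous hG
  refine K_one3 (lam := w₀) (k₂ := k₂) hG (adm := fun X x₁ x₂ => AdmB P X x₁ x₂ ∧ InjF X x₁ x₂)
    (fun β R a h ha ha1 hx => ⟨admB_Xf hP β R a h ha ha1 hx,
      Pool.Agent.Helper50.EK4.injF_Xf h ha ha1 (by linarith) (by norm_num)⟩)
    (fun δ hδ => Pool.Agent.Helper79.EK3.centre_line hδ) ?_ hw₀ hk₂ hκ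
  obtain ⟨C, hC⟩ := strip_level (T := TG G) hw₀ hk₂ hμ (fun _ _ _ _ => sq_nonneg _)
    (TG_cont hGcont) (TG_mirror hGc) hN hV hVm hVb hVs hp hW hE hK hE0 (r := 9) (D' := 8)
    (by norm_num)
  refine ⟨C, fun X x₁ x₂ l hl hx hX hA => ?_⟩
  obtain ⟨⟨p1, p2, δ, cδ, δ0, δ9, hδ, hI⟩, hInj⟩ := hA
  exact hC X δ x₁ x₂ l hl hx hX hInj p1 p2 cδ δ0 δ9 hδ hI

/-- **The bound for one target from a level certificate with multipliers for the bounds of Koebe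
and Bieberbach.** -/
theorem K_level_d {k₂ w₀ M M' μ κ L : ℝ} (hM : 0 ≤ M) (hw₀ : 0 ≤ w₀) (hk₂ : w₀ ≤ k₂)
    (hμ : 0 ≤ μ + w₀) (hκ : k₂ < 2 * κ)
    {G : ℂ → ℂ} (hG : GLip G L) (hGc : ∀ m, G (conj m) = conj (G m))
    {Nl : ℂ → ℂ → ℝ → ℝ} {Kl : ℂ → ℂ → ℝ} (hN : IsNull DiscP Nl Kl)
    {V Vx Vy Ve : ℂ → ℝ → ℝ} (hV : C1g V Vx Vy Ve)
    (hVm : ∀ X η, V (conj X) (π - η) = V X η)
    (hVb : ∀ X, ∀ η ∈ Icc (0:ℝ) (π / 2), |V X η| ≤ M')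
    (hVs : ∀ X, ∀ η ∈ Icc (0:ℝ) (π / 2), 0 ≤ (V X η - w₀) * (2 * X.re - ‖X‖ ^ 2))
    (hp : ∀ X Y : ℂ, X ≠ 0 → ∀ η ∈ Icc (0:ℝ) (π / 2), ∀ r : ℝ,
      (r = k₂ * (1 - X.re) + V X η * (‖X‖ ^ 2 - X.re) + Nl X Y η - η * |dL Vx Vy Ve X Y η| ∨
        r = k₂ * (1 - X.re) + w₀ * ‖X‖ ^ 2 + μ * X.re + Nl X Y η) →
      ∃ l₀ l₁ l₂ : ℝ, 0 ≤ l₀ ∧ l₀ ≤ M ∧ 0 ≤ l₁ ∧ l₁ ≤ M ∧ 0 ≤ l₂ ∧ l₂ ≤ M ∧
      TG G X Y (Real.sin η) (Real.cos η) + l₀ * (1 - (Real.sin η * ‖X‖) ^ 2) +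
        l₁ * (16 - ‖dA 1 X Y (Real.sin η) (Real.cos η)‖ ^ 2) +
        l₂ * (16 - ‖dA (-1) X Y (Real.sin η) (Real.cos η)‖ ^ 2) ≤ r)
    {Ec Ex Ey W Wx Wy : ℂ → ℝ} (hW : C1f W Wx Wy) (hE : C1f Ec Ex Ey)
    (hK : ∀ X Y : ℂ, X ≠ 0 → Kl X Y + Kl (conj X) (conj Y) =
      - Ec X + (Wx X * Y.re + Wy X * Y.im))
    (hE0 : ∀ X : ℂ, ‖X‖ ≤ 1 → 0 ≤ Ec X) :
    ∃ C a₀ : ℝ, a₀ < 1 ∧ ∀ (β : ℂ → ℂ) (R a : ℝ), ExtR β R → a₀ < a → a < 1 →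
      Kf (wf G β) 1 (-1) (Real.log a) ≤ κ * Real.log (‖N β a‖ / (1 - a ^ 2)) + C := by
  refine K_level (P := DiscP) discP_Xf hw₀ hk₂ hμ hκ hG hGc hN hV hVm hVb hVs
    (D := 330 * M * 8) ?_ hW hE hK hE0
  intro X x₁ x₂ hx hX hP
  obtain ⟨δ, h1, h2, h3, h4, h5⟩ := hP
  refine ⟨fun ξ => 330 * M * δ ξ, by fun_prop, fun ξ => by have := h2 ξ; positivity, ?_, ?_⟩
  · rw [intervalIntegral.integral_const_mul]
    exact mul_le_mul_of_nonneg_left h4 (by positivity)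
  · intro ξ hξ η hη
    have hne := hX.ne _ (pt_mem_RectH hξ hη)
    have hs : 0 ≤ Real.sin η := Real.sin_nonneg_of_nonneg_of_le_pi hη.1
      (hη.2.trans (by linarith [Real.pi_pos]))
    obtain ⟨k1, k2, k3⟩ := h5 ξ hξ η hη
    have hd0 := h2 ξ
    have hd8 := h3 ξ hξ
    have main : ∀ r : ℝ,
        (r = k₂ * (1 - (X (pt ξ η)).re) + V (X (pt ξ η)) η *
            (‖X (pt ξ η)‖ ^ 2 - (X (pt ξ η)).re) + Nl (X (pt ξ η)) (deriv X (pt ξ η)) η -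
            η * |dL Vx Vy Ve (X (pt ξ η)) (deriv X (pt ξ η)) η| ∨
          r = k₂ * (1 - (X (pt ξ η)).re) + w₀ * ‖X (pt ξ η)‖ ^ 2 + μ * (X (pt ξ η)).re +
            Nl (X (pt ξ η)) (deriv X (pt ξ η)) η) →
        TG G (X (pt ξ η)) (deriv X (pt ξ η)) (Real.sin η) (Real.cos η) ≤
          r + 330 * M * δ ξ := by
      intro r hr
      obtain ⟨l₀, l₁, l₂, a1, a2, b1, b2, c1, c2, hl⟩ := hp _ (deriv X (pt ξ η)) hne η hη r hr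
      set d := δ ξ with hd
      have s1 : (Real.sin η * ‖X (pt ξ η)‖) ^ 2 ≤ 1 + 10 * d := by
        have := pow_le_pow_left₀ (mul_nonneg hs (norm_nonneg _)) k1 2
        nlinarith
      have s2 : ‖dA 1 (X (pt ξ η)) (deriv X (pt ξ η)) (Real.sin η) (Real.cos η)‖ ^ 2 ≤
          16 + 160 * d := by
        have := pow_le_pow_left₀ (norm_nonneg _) k2 2
        nlinarith
      have s3 : ‖dA (-1) (X (pt ξ η)) (deriv X (pt ξ η)) (Real.sin η) (Real.cos η)‖ ^ 2 ≤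
          16 + 160 * d := by
        have := pow_le_pow_left₀ (norm_nonneg _) k3 2
        nlinarith
      have m1 : l₀ * ((Real.sin η * ‖X (pt ξ η)‖) ^ 2 - 1) ≤ M * (10 * d) :=
        (mul_le_mul_of_nonneg_left (by linarith : _ ≤ 10 * d) a1).trans
          (mul_le_mul_of_nonneg_right a2 (by positivity))
      have m2 : l₁ * (‖dA 1 (X (pt ξ η)) (deriv X (pt ξ η)) (Real.sin η) (Real.cos η)‖ ^ 2 - 16) ≤
          M * (160 * d) :=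
        (mul_le_mul_of_nonneg_left (by linarith : _ ≤ 160 * d) b1).trans
          (mul_le_mul_of_nonneg_right b2 (by positivity))
      have m3 : l₂ *
          (‖dA (-1) (X (pt ξ η)) (deriv X (pt ξ η)) (Real.sin η) (Real.cos η)‖ ^ 2 - 16) ≤
          M * (160 * d) :=
        (mul_le_mul_of_nonneg_left (by linarith : _ ≤ 160 * d) c1).trans
          (mul_le_mul_of_nonneg_right c2 (by positivity))
      linarith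
    have q1 := main _ (Or.inl rfl)
    have q2 := main _ (Or.inr rfl)
    simp only
    constructor <;> linarith

end Pool.Agent.Helper84.EK4
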