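import Pool.Agent.Helper84.EK4.Curve
set_option autoImplicit false
open Complex MeasureTheory Metric Set Filter Topology
open scoped Real ComplexConjugate NNReal

/-! Project EK4: the inequality on one component of a level. -/

namespace Pool.Agent.Helper84.EK4

open Pool.Agent.Helper52.EK

/-- the integrand of the level inequality -/
noncomputable def Hf (w₀ C : ℝ) (A : ℂ → ℝ) (χ χ₁ : ℝ → ℝ) (X : ℂ → ℂ) (ω : ℂ) : ℝ :=
  χ ω.re * A ω + w₀ * (χ ω.re * (‖X ω‖ ^ 2 - (X ω).re)) + 2 * C * (|χ₁ ω.re| * |(X ω).im|)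

/-- a function of class C¹ of `X` and `η` with its partial derivatives -/
structure C1g (W Wx Wy We : ℂ → ℝ → ℝ) : Prop where
  hd : ∀ (X : ℂ) (η : ℝ), HasFDerivAt (fun p : ℂ × ℝ => W p.1 p.2)
    ((Wx X η • reCLM + Wy X η • imCLM).comp (ContinuousLinearMap.fst ℝ ℂ ℝ) +
      We X η • ContinuousLinearMap.snd ℝ ℂ ℝ) (X, η)
  cx : Continuous fun p : ℂ × ℝ => Wx p.1 p.2
  cy : Continuous fun p : ℂ × ℝ => Wy p.1 p.2
  ce : Continuous fun p : ℂ × ℝ => We p.1 p.2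

theorem C1g.cont {W Wx Wy We : ℂ → ℝ → ℝ} (h : C1g W Wx Wy We) :
    Continuous fun p : ℂ × ℝ => W p.1 p.2 :=
  continuous_iff_continuousAt.2 fun p => (h.hd p.1 p.2).continuousAt

/-- the derivative of `W` along a level line, up to the factor `- 1 / (2 |X|²)` -/
noncomputable def dL (Wx Wy We : ℂ → ℝ → ℝ) (X Y : ℂ) (η : ℝ) : ℝ :=
  ‖X‖ ^ 2 * (Wx X η * (Y / X).im - Wy X η * (Y / X).re) - We X η * X.re

/-- the pointwise hypotheses -/
structure LvHyp (w₀ M μ : ℝ) (W Wx Wy We : ℂ → ℝ → ℝ) (A : ℂ → ℝ) (X : ℂ → ℂ) (x₁ x₂ : ℝ) :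
    Prop where
  hM : ∀ ω ∈ Rect x₁ x₂, ∀ s : ℝ, 2 * |s| ≤ ω.im → 2 * |s| ≤ π - ω.im →
    0 ≤ A ω + W (X ω) ω.im * (‖X ω‖ ^ 2 - (X ω).re) +
      2 * s * dL Wx Wy We (X ω) (deriv X ω) ω.im
  hS : ∀ ω ∈ Rect x₁ x₂, 0 ≤ (W (X ω) ω.im - w₀) * (2 * (X ω).re - ‖X ω‖ ^ 2)
  hO : ∀ ω ∈ Rect x₁ x₂, 0 ≤ A ω + w₀ * ‖X ω‖ ^ 2 + μ * (X ω).re
  hB : ∀ ω ∈ Rect x₁ x₂, |W (X ω) ω.im| ≤ M

theorem al1 {n p : ℝ} (hn : n ≠ 0) : p / (2 * n) / 2 * (4 * n) = p := by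
  field_simp
  norm_num

theorem al2 {n p v : ℝ} (hn : n ≠ 0) :
    v * (p / (2 * n) - 1 / 4) = v * (2 * p - n) / (4 * n) := by
  field_simp
  ring

theorem al3 {n p w μ : ℝ} (hn : n ≠ 0) :
    (-(w / 4) - μ / 2 * (p / (2 * n))) * (4 * n) = -(w * n) - μ * p := by
  field_simp
  ring

theorem al4 {n χ A w p q C c : ℝ} (hn : n ≠ 0) :
    (χ * A + w * (χ * (n - p)) + 2 * C * (c * q)) / (4 * n) =
    χ * (A / (4 * n)) - w / 2 * (χ * (p / (2 * n))) + w / 4 * χ + C * (c * (q / (2 * n))) := by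
  field_simp
  ring

theorem al5 {n p v v' s A : ℝ} (h : 0 ≤ A + v * (n - p) + 2 * s * v') (hn : 0 < n) :
    -(v' / (2 * n)) * s + v * (p / (2 * n) / 2 - 1 / 4) ≤ A / (4 * n) := by
  rw [le_div_iff₀ (by positivity)]
  have h4 : (-(v' / (2 * n)) * s + v * (p / (2 * n) / 2 - 1 / 4)) * (4 * n) =
      -(2 * s * (v' / (2 * n) / 2 * (4 * n))) + v * (p / (2 * n) / 2 * (4 * n) - n) := by ring
  rw [h4, al1 hn.ne', al1 hn.ne']
  linarith

theorem al6 {n p x y e qr qi : ℝ} (hn : n ≠ 0) :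
    x * -(qi / 2) + y * (qr / 2) + e * (p / (2 * n)) =
      -((n * (x * qi - y * qr) - e * p) / (2 * n)) := by
  field_simp
  ring

theorem level_arc {w₀ M μ : ℝ} (hw₀ : 0 ≤ w₀) (hμ : 0 ≤ μ + w₀) {W Wx Wy We : ℂ → ℝ → ℝ}
    (hW : C1g W Wx Wy We)
    {A : ℂ → ℝ} {X F : ℂ → ℂ} {x₁ x₂ : ℝ} (hX : NiceX X x₁ x₂)
    (hA : ContinuousOn A (Rect x₁ x₂)) (h : LvHyp w₀ M μ W Wx Wy We A X x₁ x₂)
    (hF : AnalyticOnNhd ℂ F (Rect x₁ x₂)) (hF' : ∀ ω ∈ Rect x₁ x₂, HasDerivAt F (2 * X ω) ω)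
    (hi : InjOn (fun ω => Complex.exp (F ω)) (Rect x₁ x₂))
    {χ χ₁ : ℝ → ℝ} (hχ : ∀ ξ, HasDerivAt χ (χ₁ ξ) ξ) (hχ₁ : Continuous χ₁)
    (χ0 : ∀ ξ, 0 ≤ χ ξ) (e1 : χ x₁ = 0) (e2 : χ x₂ = 0)
    {τ a b : ℝ} (hab : a < b)
    (hsub : ∀ θ ∈ Ioo a b, (τ : ℂ) + θ * I ∈ F '' (Ioo x₁ x₂ ×ℂ Ioo 0 π))
    (ha : (τ : ℂ) + a * I ∉ F '' (Ioo x₁ x₂ ×ℂ Ioo 0 π))
    (hb : (τ : ℂ) + b * I ∉ F '' (Ioo x₁ x₂ ×ℂ Ioo 0 π)) :
    0 ≤ ∫ θ in a..b, (fun ω => Hf w₀ (Cst w₀ M μ) A χ χ₁ X ω / (4 * ‖X ω‖ ^ 2))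
      (Function.invFunOn F (Ioo x₁ x₂ ×ℂ Ioo 0 π) ((τ : ℂ) + θ * I)) := by
  have hab' := hab.le
  obtain ⟨U, hU⟩ : ∃ U, U = Ioo x₁ x₂ ×ℂ Ioo 0 π := ⟨_, rfl⟩
  rw [← hU] at hsub ha hb ⊢
  have hUo : IsOpen U := by rw [hU]; exact isOpen_int x₁ x₂
  have hUR : U ⊆ Rect x₁ x₂ := by rw [hU]; exact int_sub x₁ x₂
  have hcX : ContinuousOn X (Rect x₁ x₂) := hX.an.continuousOn
  have hcX' : ContinuousOn (deriv X) (Rect x₁ x₂) := hX.an.deriv.continuousOn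
  have hiF : InjOn F (Rect x₁ x₂) := fun z hz w hw hzw => hi hz hw (by simp only [hzw])
  have hst : ∀ ω ∈ U, HasStrictDerivAt F (2 * X ω) ω := fun ω hω => by
    have := (hF ω (hUR hω)).hasStrictDerivAt
    rwa [(hF' ω (hUR hω)).deriv] at this
  have hne : ∀ ω ∈ U, 2 * X ω ≠ 0 := fun ω hω =>
    mul_ne_zero two_ne_zero (hX.ne ω (hUR hω))
  obtain ⟨hDo, hG⟩ := inv_on hUo hst hne (hiF.mono hUR)
  obtain ⟨G, hGd⟩ : ∃ G, G = Function.invFunOn F U := ⟨_, rfl⟩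
  rw [← hGd] at hG ⊢
  -- the curve
  obtain ⟨c, hc⟩ : ∃ c : ℝ → ℂ, c = fun θ : ℝ => G ((τ : ℂ) + θ * I) := ⟨_, rfl⟩
  have hcU : ∀ θ ∈ Ioo a b, c θ ∈ U := fun θ hθ => by
    rw [hc]
    exact (hG _ (hsub θ hθ)).1
  have hcF : ∀ θ ∈ Ioo a b, F (c θ) = (τ : ℂ) + θ * I := fun θ hθ => by
    rw [hc]
    exact (hG _ (hsub θ hθ)).2.1
  have hcd : ∀ θ ∈ Ioo a b, HasDerivAt c ((2 * X (c θ))⁻¹ * I) θ := fun θ hθ => by
    have h1 := (hG _ (hsub θ hθ)).2.2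
    have h2 : HasDerivAt (fun θ : ℝ => (τ : ℂ) + θ * I) I θ := by
      have h3 : HasDerivAt (fun θ : ℝ => (θ : ℂ)) 1 θ := ofRealCLM.hasDerivAt
      have h4 := (h3.mul_const I).const_add (τ : ℂ)
      rwa [one_mul] at h4
    have h5 := HasDerivAt.comp θ (h₂ := G) (h := fun θ : ℝ => (τ : ℂ) + θ * I) h1 h2
    rw [hc]
    exact h5
  -- a bound for the derivative
  have hR : (Rect x₁ x₂).Nonempty := by
    obtain ⟨θ, hθ⟩ := nonempty_Ioo.2 hab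
    exact ⟨c θ, hUR (hcU θ hθ)⟩
  obtain ⟨ω₀, hω₀, hmin⟩ := (isCompact_Rect x₁ x₂).exists_isMinOn hR hcX.norm
  have hm0 : 0 < ‖X ω₀‖ := norm_pos_iff.2 (hX.ne _ hω₀)
  have hXm : ∀ ω ∈ Rect x₁ x₂, ‖X ω₀‖ ≤ ‖X ω‖ := fun ω hω => hmin hω
  obtain ⟨d, hdc, hde⟩ := ext_curve (K := (2 * ‖X ω₀‖)⁻¹) hcd (fun θ hθ => by
    rw [norm_mul, norm_inv, norm_mul, norm_I, mul_one]
    simp only [Complex.norm_ofNat]
    have := hXm _ (hUR (hcU θ hθ))
    gcongr)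
  -- the closed curve
  have hcl : Icc a b = closure (Ioo a b) := (closure_Ioo hab.ne).symm
  have hdR : ∀ θ ∈ Icc a b, d θ ∈ Rect x₁ x₂ := by
    have : Ioo a b ⊆ d ⁻¹' (Rect x₁ x₂) := fun θ hθ => by
      rw [mem_preimage, hde θ hθ]
      exact hUR (hcU θ hθ)
    rw [hcl]
    exact closure_minimal this ((isClosed_Rect x₁ x₂).preimage hdc)
  have hdF : ∀ θ ∈ Icc a b, F (d θ) = (τ : ℂ) + θ * I := by
    have h1 : ContinuousOn (fun θ => F (d θ)) (Icc a b) :=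
      hF.continuousOn.comp hdc.continuousOn fun θ hθ => hdR θ hθ
    have h2 : EqOn (fun θ => F (d θ)) (fun θ : ℝ => (τ : ℂ) + θ * I) (Ioo a b) := fun θ hθ => by
      simp only
      rw [hde θ hθ, hcF θ hθ]
    exact h2.of_subset_closure h1 (by fun_prop) Ioo_subset_Icc_self hcl.subset
  have hdU : ∀ θ ∈ Ioo a b, d θ ∈ U := fun θ hθ => by
    rw [hde θ hθ]
    exact hcU θ hθ
  have hdd : ∀ θ ∈ Ioo a b, HasDerivAt d ((2 * X (d θ))⁻¹ * I) θ := fun θ hθ => by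
    rw [hde θ hθ]
    exact (hcd θ hθ).congr_of_eventuallyEq (by
      filter_upwards [isOpen_Ioo.mem_nhds hθ] with t ht
      exact hde t ht)
  -- end points
  have hend : ∀ θ ∈ Icc a b, (τ : ℂ) + θ * I ∉ F '' U → χ (d θ).re = 0 ∨ (d θ).im = 0 ∨
      (d θ).im = π := by
    intro θ hθ hn
    have h1 : d θ ∉ U := fun hm => hn ⟨d θ, hm, hdF θ hθ⟩
    rw [hU] at h1
    rcases not_int (hdR θ hθ) h1 with h2 | h2 | h2 | h2
    · left
      rw [h2, e1]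
    · left
      rw [h2, e2]
    · exact Or.inr (Or.inl h2)
    · exact Or.inr (Or.inr h2)
  -- length
  have hL : b - a ≤ 2 * π := by
    by_contra hn
    push Not at hn
    obtain ⟨p, hp⟩ : ∃ p, p = (a + (b - 2 * π)) / 2 := ⟨_, rfl⟩
    have hπ := Real.pi_pos
    have h1 : p ∈ Ioo a b := ⟨by rw [hp]; linarith, by rw [hp]; linarith⟩
    have h2 : p + 2 * π ∈ Ioo a b := ⟨by rw [hp]; linarith, by rw [hp]; linarith⟩
    have h3 : Complex.exp (F (d p)) = Complex.exp (F (d (p + 2 * π))) := by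
      rw [hdF p (Ioo_subset_Icc_self h1), hdF (p + 2 * π) (Ioo_subset_Icc_self h2)]
      push_cast
      rw [add_mul, ← add_assoc, Complex.exp_add ((τ : ℂ) + p * I), Complex.exp_two_pi_mul_I,
        mul_one]
    have h4 := hi (hdR p (Ioo_subset_Icc_self h1)) (hdR _ (Ioo_subset_Icc_self h2)) h3
    have h5 := hdF p (Ioo_subset_Icc_self h1)
    rw [h4, hdF _ (Ioo_subset_Icc_self h2)] at h5
    have h6 := congrArg Complex.im h5
    simp at h6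
  -- continuity along the curve
  have hcont : ∀ {f : ℂ → ℝ}, ContinuousOn f (Rect x₁ x₂) →
      ContinuousOn (fun θ => f (d θ)) (Icc a b) := fun hf =>
    hf.comp hdc.continuousOn fun θ hθ => hdR θ hθ
  have cn2 : ContinuousOn (fun ω => ‖X ω‖ ^ 2) (Rect x₁ x₂) := hcX.norm.pow 2
  have n2 : ∀ ω ∈ Rect x₁ x₂, ‖X ω‖ ^ 2 ≠ 0 := fun ω hω =>
    pow_ne_zero 2 (norm_ne_zero_iff.2 (hX.ne ω hω))
  have n3 : ∀ ω ∈ Rect x₁ x₂, 2 * ‖X ω‖ ^ 2 ≠ 0 := fun ω hω => mul_ne_zero two_ne_zero (n2 ω hω)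
  have n4 : ∀ ω ∈ Rect x₁ x₂, 4 * ‖X ω‖ ^ 2 ≠ 0 := fun ω hω =>
    mul_ne_zero four_ne_zero (n2 ω hω)
  have cre : ContinuousOn (fun ω => (X ω).re) (Rect x₁ x₂) := continuous_re.comp_continuousOn hcX
  have cim : ContinuousOn (fun ω => (X ω).im) (Rect x₁ x₂) := continuous_im.comp_continuousOn hcX
  have cq : ContinuousOn (fun ω => deriv X ω / X ω) (Rect x₁ x₂) := hcX'.div hcX hX.ne
  have cqr : ContinuousOn (fun ω => (deriv X ω / X ω).re) (Rect x₁ x₂) :=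
    continuous_re.comp_continuousOn cq
  have cqi : ContinuousOn (fun ω => (deriv X ω / X ω).im) (Rect x₁ x₂) :=
    continuous_im.comp_continuousOn cq
  have cXe : ContinuousOn (fun ω : ℂ => (X ω, ω.im)) (Rect x₁ x₂) :=
    hcX.prodMk continuous_im.continuousOn
  have cWx : ContinuousOn (fun ω => Wx (X ω) ω.im) (Rect x₁ x₂) := hW.cx.comp_continuousOn cXe
  have cWy : ContinuousOn (fun ω => Wy (X ω) ω.im) (Rect x₁ x₂) := hW.cy.comp_continuousOn cXe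
  have cWe : ContinuousOn (fun ω => We (X ω) ω.im) (Rect x₁ x₂) := hW.ce.comp_continuousOn cXe
  have cW : ContinuousOn (fun ω => W (X ω) ω.im) (Rect x₁ x₂) := hW.cont.comp_continuousOn cXe
  have cdL : ContinuousOn (fun ω => dL Wx Wy We (X ω) (deriv X ω) ω.im) (Rect x₁ x₂) := by
    unfold dL
    exact (cn2.mul ((cWx.mul cqi).sub (cWy.mul cqr))).sub (cWe.mul cre)
  have cχ : Continuous χ := continuous_iff_continuousAt.2 fun ξ => (hχ ξ).continuousAt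
  have cχr : ContinuousOn (fun ω : ℂ => χ ω.re) (Rect x₁ x₂) :=
    (cχ.comp continuous_re).continuousOn
  have cχ₁r : ContinuousOn (fun ω : ℂ => χ₁ ω.re) (Rect x₁ x₂) :=
    (hχ₁.comp continuous_re).continuousOn
  -- derivatives along the curve
  have hdre : ∀ θ ∈ Ioo a b, HasDerivAt (fun t => (d t).re)
      ((X (d θ)).im / (2 * ‖X (d θ)‖ ^ 2)) θ := fun θ hθ => by
    have h1 := (reCLM.hasFDerivAt (x := d θ)).comp_hasDerivAt θ (hdd θ hθ)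
    refine h1.congr_deriv ?_
    have h2 := hX.ne _ (hdR θ (Ioo_subset_Icc_self hθ))
    rw [← Complex.normSq_eq_norm_sq, reCLM_apply, mul_re, I_re, I_im, inv_im, mul_im, mul_zero,
      zero_sub, mul_one, normSq_mul]
    simp only [re_ofNat, im_ofNat, zero_mul, add_zero, normSq_ofNat]
    have h3 : normSq (X (d θ)) ≠ 0 := by rwa [Ne, normSq_eq_zero]
    field_simp
  have hdim : ∀ θ ∈ Ioo a b, HasDerivAt (fun t => (d t).im)
      ((X (d θ)).re / (2 * ‖X (d θ)‖ ^ 2)) θ := fun θ hθ => by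
    have h1 := (imCLM.hasFDerivAt (x := d θ)).comp_hasDerivAt θ (hdd θ hθ)
    refine h1.congr_deriv ?_
    have h2 := hX.ne _ (hdR θ (Ioo_subset_Icc_self hθ))
    rw [← Complex.normSq_eq_norm_sq, imCLM_apply, mul_im, I_re, I_im, inv_re, mul_re, mul_zero,
      add_zero, mul_one, normSq_mul]
    simp only [re_ofNat, im_ofNat, zero_mul, sub_zero, normSq_ofNat]
    have h3 : normSq (X (d θ)) ≠ 0 := by rwa [Ne, normSq_eq_zero]
    field_simp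
  have hdW : ∀ θ ∈ Ioo a b, HasDerivAt (fun t => W (X (d t)) (d t).im)
      (-(dL Wx Wy We (X (d θ)) (deriv X (d θ)) (d θ).im / (2 * ‖X (d θ)‖ ^ 2))) θ := fun θ hθ => by
    have hm := hdR θ (Ioo_subset_Icc_self hθ)
    have h1 : HasDerivAt (fun t => X (d t)) (deriv X (d θ) * ((2 * X (d θ))⁻¹ * I)) θ :=
      HasDerivAt.comp θ (h₂ := X) (h := d) (hX.an _ hm).differentiableAt.hasDerivAt (hdd θ hθ)
    have h2 := (hW.hd (X (d θ)) (d θ).im).comp_hasDerivAt θ (h1.prodMk (hdim θ hθ))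
    refine h2.congr_deriv ?_
    have h3 : deriv X (d θ) * ((2 * X (d θ))⁻¹ * I) = (deriv X (d θ) / X (d θ)) / 2 * I := by
      rw [mul_inv, div_eq_mul_inv, div_eq_mul_inv]
      ring
    rw [h3]
    simp only [add_apply, smul_apply, reCLM_apply, ContinuousLinearMap.comp_apply,
      ContinuousLinearMap.coe_fst', ContinuousLinearMap.coe_snd',
      imCLM_apply, smul_eq_mul, mul_re, mul_im, I_re, I_im, mul_zero, mul_one, zero_sub,
      div_ofNat_re, div_ofNat_im, add_zero]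
    have h4 : ‖X (d θ)‖ ^ 2 ≠ 0 := n2 _ hm
    unfold dL
    exact al6 h4
  -- apply the arc inequality
  have key := arc (μ := μ) (M := M) (w₀ := w₀) hab hL hw₀ hμ
    (e := fun θ => (d θ).im) (e' := fun θ => (X (d θ)).re / (2 * ‖X (d θ)‖ ^ 2))
    (k := fun θ => χ (d θ).re)
    (k' := fun θ => χ₁ (d θ).re * ((X (d θ)).im / (2 * ‖X (d θ)‖ ^ 2)))
    (v := fun θ => W (X (d θ)) (d θ).im)
    (v' := fun θ => -(dL Wx Wy We (X (d θ)) (deriv X (d θ)) (d θ).im / (2 * ‖X (d θ)‖ ^ 2)))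
    (g := fun θ => A (d θ) / (4 * ‖X (d θ)‖ ^ 2))
    (continuous_im.comp hdc).continuousOn
    (hcont (f := fun ω => (X ω).re / (2 * ‖X ω‖ ^ 2)) (cre.div (continuousOn_const.mul cn2) n3))
    (hcont cχr)
    (hcont (f := fun ω => χ₁ ω.re * ((X ω).im / (2 * ‖X ω‖ ^ 2)))
      (cχ₁r.mul (cim.div (continuousOn_const.mul cn2) n3)))
    (hcont cW)
    (hcont (f := fun ω => -(dL Wx Wy We (X ω) (deriv X ω) ω.im / (2 * ‖X ω‖ ^ 2)))
      (cdL.div (continuousOn_const.mul cn2) n3).neg)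
    (hcont (f := fun ω => A ω / (4 * ‖X ω‖ ^ 2)) (hA.div (continuousOn_const.mul cn2) n4))
    hdim (fun θ hθ => (hχ _).comp θ (hdre θ hθ)) hdW (fun θ _ => χ0 _)
    (fun θ hθ => (hdR θ hθ).2.1) (fun θ hθ => (hdR θ hθ).2.2) (fun θ hθ => h.hB _ (hdR θ hθ))
    (fun θ hθ s hs1 hs2 => al5 (h.hM _ (hdR θ hθ) s hs1 hs2)
      (lt_of_le_of_ne (sq_nonneg _) (Ne.symm (n2 _ (hdR θ hθ)))))
    (fun θ hθ => by
      have h1 := h.hS _ (hdR θ hθ)
      rw [al2 (n2 _ (hdR θ hθ))]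
      positivity)
    (fun θ hθ => by
      have h1 := h.hO _ (hdR θ hθ)
      have h2 := n2 _ (hdR θ hθ)
      have h3 : 0 < ‖X (d θ)‖ ^ 2 := lt_of_le_of_ne (sq_nonneg _) (Ne.symm h2)
      rw [le_div_iff₀ (by positivity), al3 h2]
      linarith)
    (hend a ⟨le_rfl, hab'⟩ ha) (hend b ⟨hab', le_rfl⟩ hb)
  -- the integrals
  have i1 : IntervalIntegrable (fun θ => χ (d θ).re * (A (d θ) / (4 * ‖X (d θ)‖ ^ 2))) volume a b :=
    (hcont (f := fun ω => χ ω.re * (A ω / (4 * ‖X ω‖ ^ 2)))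
      (cχr.mul (hA.div (continuousOn_const.mul cn2) n4))).intervalIntegrable_of_Icc hab'
  have i2 : IntervalIntegrable (fun θ => χ (d θ).re * ((X (d θ)).re / (2 * ‖X (d θ)‖ ^ 2)))
      volume a b :=
    (hcont (f := fun ω => χ ω.re * ((X ω).re / (2 * ‖X ω‖ ^ 2)))
      (cχr.mul (cre.div (continuousOn_const.mul cn2) n3))).intervalIntegrable_of_Icc hab'
  have i3 : IntervalIntegrable (fun θ => χ (d θ).re) volume a b :=
    (hcont cχr).intervalIntegrable_of_Icc hab'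
  have i4 : IntervalIntegrable (fun θ => |χ₁ (d θ).re * ((X (d θ)).im / (2 * ‖X (d θ)‖ ^ 2))|)
      volume a b :=
    (hcont (f := fun ω => |χ₁ ω.re * ((X ω).im / (2 * ‖X ω‖ ^ 2))|)
      (cχ₁r.mul (cim.div (continuousOn_const.mul cn2) n3)).abs).intervalIntegrable_of_Icc hab'
  have e3 : ∫ θ in a..b, (fun ω => Hf w₀ (Cst w₀ M μ) A χ χ₁ X ω / (4 * ‖X ω‖ ^ 2))
      (G ((τ : ℂ) + θ * I)) =
      ∫ θ in a..b, (χ (d θ).re * (A (d θ) / (4 * ‖X (d θ)‖ ^ 2)) -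
        w₀ / 2 * (χ (d θ).re * ((X (d θ)).re / (2 * ‖X (d θ)‖ ^ 2))) +
        w₀ / 4 * χ (d θ).re + Cst w₀ M μ *
          |χ₁ (d θ).re * ((X (d θ)).im / (2 * ‖X (d θ)‖ ^ 2))|) := by
    rw [intervalIntegral.integral_of_le hab', intervalIntegral.integral_of_le hab',
      integral_Ioc_eq_integral_Ioo, integral_Ioc_eq_integral_Ioo]
    refine setIntegral_congr_fun measurableSet_Ioo fun θ hθ => ?_
    have h1 : G ((τ : ℂ) + θ * I) = d θ := by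
      rw [hde θ hθ, hc]
    simp only
    rw [h1]
    unfold Hf
    have h2 := n2 _ (hdR θ (Ioo_subset_Icc_self hθ))
    have h3 : 0 < ‖X (d θ)‖ ^ 2 := lt_of_le_of_ne (sq_nonneg _) (Ne.symm h2)
    rw [abs_mul, abs_div, abs_of_pos (by positivity : 0 < 2 * ‖X (d θ)‖ ^ 2)]
    exact al4 h2
  rw [e3]
  rw [intervalIntegral.integral_add (((i1.sub (i2.const_mul _)).add (i3.const_mul _)))
    (i4.const_mul _), intervalIntegral.integral_add (i1.sub (i2.const_mul _)) (i3.const_mul _),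
    intervalIntegral.integral_sub i1 (i2.const_mul _), intervalIntegral.integral_const_mul,
    intervalIntegral.integral_const_mul, intervalIntegral.integral_const_mul]
  exact key

end Pool.Agent.Helper84.EK4
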