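import Pool.Agent.Helper84.EK4.Core
set_option autoImplicit false
open Complex MeasureTheory Metric Set
open scoped Real ComplexConjugate

/-!
# Project EK4: from the pointwise level certificate to the integrated inequality
-/

namespace Pool.Agent.Helper84.EK4

open Pool.Agent.Helper52.EK Pool.Agent.Helper69.EK3

variable {P : (ℂ → ℂ) → ℝ → ℝ → Prop}

theorem pt_re (ξ η : ℝ) : (pt ξ η).re = ξ := by simp [pt]

theorem pt_im (ξ η : ℝ) : (pt ξ η).im = η := by simp [pt]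

/-- the bound on the whole strip from the bounds on the half strip -/
theorem mir_ext {W : ℂ → ℝ → ℝ} (hm : ∀ X η, W (conj X) (π - η) = W X η) {Q : ℂ → ℝ → Prop}
    (hQ : ∀ X r, Q X r → Q (conj X) r) (h : ∀ X, ∀ η ∈ Icc (0:ℝ) (π / 2), Q X (W X η)) (X : ℂ)
    {η : ℝ} (h0 : 0 ≤ η) (h1 : η ≤ π) : Q X (W X η) := by
  rcases le_total η (π / 2) with h2 | h2
  · exact h X η ⟨h0, h2⟩
  · have h3 := h (conj X) (π - η) ⟨by linarith, by linarith⟩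
    rw [hm] at h3
    have h4 := hQ _ _ h3
    rwa [Complex.conj_conj] at h4

/-- the error from the cut-off function -/
theorem err_le {k l x₁ x₂ : ℝ} {χ χ₁ χ₂ : ℝ → ℝ} (hc : Cut k l x₁ x₂ χ χ₁ χ₂) (hk : 0 ≤ k)
    (hl : 1 ≤ l) (hx : x₁ ≤ x₂) {X : ℂ → ℂ} (hX : NiceX X x₁ x₂) :
    II x₁ x₂ (fun ξ η => |χ₁ ξ| * |(X (pt ξ η)).im|) ≤
      (π + 1) * k * (1 + II x₁ x₂ (fun ξ η => ‖X (pt ξ η) - 1‖ ^ 2) / l) := by
  have hl0 : 0 < l := by linarith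
  have hπ := Real.pi_pos
  have cc := hX.an.continuousOn
  have c1 : CH x₁ x₂ π (fun ξ η => |χ₁ ξ| * |(X (pt ξ η)).im|) :=
    (CH_xi hc.cont1.abs).mul (CH_comp (h := π) cc (W := fun Z => |Z.im|) (by fun_prop))
  have c2 : CH x₁ x₂ π (fun ξ _ => 1 / 2 * |χ₁ ξ|) := CH_xi (continuous_const.mul hc.cont1.abs)
  have c3 : CH x₁ x₂ π (fun ξ η => k / (2 * l) * ‖X (pt ξ η) - 1‖ ^ 2) :=
    (CH_const _).mul (CH_comp (h := π) cc (W := fun Z => ‖Z - 1‖ ^ 2) (by fun_prop))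
  have m := IH_mono hx hπ.le c1 (c2.add c3) (by
    intro ξ _ η _
    have h1 := hc.k1 ξ
    have h2 : |(X (pt ξ η)).im| ≤ ‖X (pt ξ η) - 1‖ := by
      have := abs_im_le_norm (X (pt ξ η) - 1)
      rwa [sub_im, one_im, sub_zero] at this
    have h3 : |(X (pt ξ η)).im| ≤ 1 / 2 * (1 + ‖X (pt ξ η) - 1‖ ^ 2) := by
      nlinarith [sq_nonneg (‖X (pt ξ η) - 1‖ - 1)]
    have h4 : |χ₁ ξ| * |(X (pt ξ η)).im| ≤ |χ₁ ξ| * (1 / 2 * (1 + ‖X (pt ξ η) - 1‖ ^ 2)) :=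
      mul_le_mul_of_nonneg_left h3 (abs_nonneg _)
    have h5 : |χ₁ ξ| * ‖X (pt ξ η) - 1‖ ^ 2 ≤ k / l * ‖X (pt ξ η) - 1‖ ^ 2 :=
      mul_le_mul_of_nonneg_right h1 (sq_nonneg _)
    have h6 : k / (2 * l) * ‖X (pt ξ η) - 1‖ ^ 2 = k / l * ‖X (pt ξ η) - 1‖ ^ 2 / 2 := by
      field_simp
    rw [h6]
    linarith)
  rw [IH_add hx hπ.le c2 c3, IH_const_mul, IH_xi, IH_const_mul] at m
  have e1 : ∀ (F : ℝ → ℝ → ℝ), II x₁ x₂ F = IH x₁ x₂ π F := fun _ => rfl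
  rw [e1, e1]
  obtain ⟨E, hE⟩ : ∃ E, E = IH x₁ x₂ π (fun ξ η => ‖X (pt ξ η) - 1‖ ^ 2) := ⟨_, rfl⟩
  have hE0 : 0 ≤ E := by
    rw [hE]
    unfold IH
    exact intervalIntegral.integral_nonneg hx fun ξ _ =>
      intervalIntegral.integral_nonneg hπ.le fun η _ => sq_nonneg _
  rw [← hE] at m ⊢
  refine m.trans ?_
  have h7 : k / (2 * l) * E = k * (E / l) / 2 := by
    field_simp
  have h8 : 0 ≤ E / l := div_nonneg hE0 hl0.le
  have h9 := mul_le_mul_of_nonneg_left hc.i1 hπ.le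
  have h10 : 0 ≤ k * (E / l) := mul_nonneg hk h8
  have h11 : (π + 1) * k * (1 + E / l) = π * k + k + π * (k * (E / l)) + k * (E / l) := by ring
  have h12 : 0 ≤ π * (k * (E / l)) := mul_nonneg hπ.le h10
  rw [h7, h11]
  nlinarith [h9, h10, h12]

/-- **The integrated inequality from a level certificate.** -/
theorem level_core {k₂ w₀ D M μ : ℝ} (hw₀ : 0 ≤ w₀) (hk₂ : w₀ ≤ k₂) (hμ : 0 ≤ μ + w₀)
    {T : ℂ → ℂ → ℝ → ℝ → ℝ} (hT0 : ∀ (X Y : ℂ) (s c : ℝ), 0 ≤ T X Y s c)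
    (hTc : ContinuousOn (fun p : ℂ × ℂ × ℝ × ℝ => T p.1 p.2.1 p.2.2.1 p.2.2.2) {p | p.1 ≠ 0})
    (hTm : ∀ (X Y : ℂ) (s c : ℝ), T (conj X) (conj Y) s c = T X Y s (-c))
    {N : ℂ → ℂ → ℝ → ℝ} {K : ℂ → ℂ → ℝ} (hN : IsNull P N K)
    {V Vx Vy Ve : ℂ → ℝ → ℝ} (hV : C1g V Vx Vy Ve)
    (hVm : ∀ X η, V (conj X) (π - η) = V X η)
    (hVb : ∀ X, ∀ η ∈ Icc (0:ℝ) (π / 2), |V X η| ≤ M)
    (hVs : ∀ X, ∀ η ∈ Icc (0:ℝ) (π / 2), 0 ≤ (V X η - w₀) * (2 * X.re - ‖X‖ ^ 2))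
    (hp : ∀ (X : ℂ → ℂ) (x₁ x₂ : ℝ), x₁ ≤ x₂ → NiceH X x₁ x₂ → P X x₁ x₂ →
      ∃ ε : ℝ → ℝ, Continuous ε ∧ (∀ ξ, 0 ≤ ε ξ) ∧ ∫ ξ in x₁..x₂, ε ξ ≤ D ∧
        ∀ ξ ∈ Icc x₁ x₂, ∀ η ∈ Icc (0:ℝ) (π / 2),
          T (X (pt ξ η)) (deriv X (pt ξ η)) (Real.sin η) (Real.cos η) +
              η * |dL Vx Vy Ve (X (pt ξ η)) (deriv X (pt ξ η)) η| ≤
            k₂ * (1 - (X (pt ξ η)).re) + V (X (pt ξ η)) η * (‖X (pt ξ η)‖ ^ 2 - (X (pt ξ η)).re) +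
              N (X (pt ξ η)) (deriv X (pt ξ η)) η + ε ξ ∧
          T (X (pt ξ η)) (deriv X (pt ξ η)) (Real.sin η) (Real.cos η) ≤
            k₂ * (1 - (X (pt ξ η)).re) + w₀ * ‖X (pt ξ η)‖ ^ 2 + μ * (X (pt ξ η)).re +
              N (X (pt ξ η)) (deriv X (pt ξ η)) η + ε ξ) :
    ∃ k C : ℝ, 0 ≤ k ∧ ∀ (X : ℂ → ℂ) (x₁ x₂ l : ℝ), 1 ≤ l → x₁ + l ≤ x₂ - l → NiceX X x₁ x₂ →
      InjF X x₁ x₂ → P X x₁ x₂ → P (mir X) x₁ x₂ →
      ∃ χ χ₁ χ₂ : ℝ → ℝ, Cut k l x₁ x₂ χ χ₁ χ₂ ∧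
      II (x₁ + l) (x₂ - l)
        (fun ξ η => T (X (pt ξ η)) (deriv X (pt ξ η)) (Real.sin η) (Real.cos η)) ≤
      w₀ * II x₁ x₂ (fun ξ η => ‖X (pt ξ η) - 1‖ ^ 2) +
        (k₂ - w₀) * (π * ∫ ξ in x₁..x₂, χ ξ * (1 - (X (pt ξ (π / 2))).re)) +
        (∫ ξ in x₁..x₂, χ ξ * (K (X (pt ξ (π / 2))) (deriv X (pt ξ (π / 2))) +
          K (conj (X (pt ξ (π / 2)))) (conj (deriv X (pt ξ (π / 2)))))) +
        C * (1 + II x₁ x₂ (fun ξ η => ‖X (pt ξ η) - 1‖ ^ 2) / l) := by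
  have hπ := Real.pi_pos
  have hM0 : 0 ≤ M := (abs_nonneg _).trans (hVb 0 0 ⟨le_rfl, by positivity⟩)
  obtain ⟨k, C, hk, hC⟩ := strip3_chi (P := P) (D := D) (N := N) (K := K) hw₀ hk₂
    (TT_cont (w₀ := w₀) (μ := μ) hV hTc) (TT_mir hV hVm hTm) hN (by
      intro X x₁ x₂ hx hX hPX
      obtain ⟨ε, cε, ε0, εD, hε⟩ := hp X x₁ x₂ hx hX hPX
      refine ⟨ε, cε, ε0, εD, fun ξ hξ η hη => ?_⟩
      obtain ⟨h1, h2⟩ := hε ξ hξ η hη
      unfold TT Bm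
      rw [arcsin_sin_left hη, Real.arccos_cos hη.1 (by linarith [hη.2])]
      rcases max_choice (-(V (X (pt ξ η)) η * (‖X (pt ξ η)‖ ^ 2 - (X (pt ξ η)).re)) +
        η * |dL Vx Vy Ve (X (pt ξ η)) (deriv X (pt ξ η)) η|)
        (-(w₀ * ‖X (pt ξ η)‖ ^ 2) - μ * (X (pt ξ η)).re) with h | h <;> rw [h] <;> linarith)
  have hCst : 0 ≤ Cst w₀ M μ := by
    unfold Cst
    have h1 : 0 ≤ (μ + w₀) / 2 * π := mul_nonneg (by linarith) hπ.le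
    positivity
  refine ⟨k, |C| + 2 * Cst w₀ M μ * ((π + 1) * k), hk, fun X x₁ x₂ l hl hx hX hI hP hP' => ?_⟩
  obtain ⟨χ, χ₁, χ₂, hc, hmain⟩ := hC X x₁ x₂ l hl hx hX hP hP'
  refine ⟨χ, χ₁, χ₂, hc, ?_⟩
  have hx12 : x₁ ≤ x₂ := by linarith
  have hl0 : 0 < l := by linarith
  -- the level inequality
  obtain ⟨A, hA⟩ : ∃ A : ℂ → ℝ, A = fun ω => Bm w₀ μ V Vx Vy Ve (X ω) (deriv X ω)
    (Real.arcsin (Real.sin ω.im)) (Real.arccos (Real.cos ω.im)) := ⟨_, rfl⟩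
  have cA : ContinuousOn A (Rect x₁ x₂) := by
    have h1 : ContinuousOn (fun ω : ℂ => (X ω, deriv X ω, Real.arcsin (Real.sin ω.im),
        Real.arccos (Real.cos ω.im))) (Rect x₁ x₂) := by
      have h2 := hX.an.continuousOn
      have h3 := hX.an.deriv.continuousOn
      have h4 : Continuous fun ω : ℂ => Real.arcsin (Real.sin ω.im) :=
        Real.continuous_arcsin.comp (Real.continuous_sin.comp continuous_im)
      have h5 : Continuous fun ω : ℂ => Real.arccos (Real.cos ω.im) :=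
        Real.continuous_arccos.comp (Real.continuous_cos.comp continuous_im)
      exact h2.prodMk (h3.prodMk (h4.continuousOn.prodMk h5.continuousOn))
    rw [hA]
    exact (Bm_cont hV).comp h1 fun ω hω => hX.ne ω hω
  have hLv : LvHyp w₀ M μ V Vx Vy Ve A X x₁ x₂ := by
    refine ⟨fun ω hω s h1 h2 => ?_, fun ω hω => ?_, fun ω hω => ?_, fun ω hω => ?_⟩
    · have h3 := Bm_M (w₀ := w₀) (μ := μ) (W := V) (Wx := Vx) (Wy := Vy) (We := Ve) (X := X ω)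
        (Y := deriv X ω) (η := ω.im) (arcsin_sin_ge hω.2.1 hω.2.2 h1 h2)
      rw [hA]
      simp only
      rw [Real.arccos_cos hω.2.1 hω.2.2]
      exact h3
    · exact mir_ext (Q := fun X r => 0 ≤ (r - w₀) * (2 * X.re - ‖X‖ ^ 2)) hVm
        (fun X r h => by rwa [conj_re, norm_conj]) hVs (X ω) hω.2.1 hω.2.2
    · rw [hA]
      exact Bm_O
    · exact mir_ext (Q := fun _ r => |r| ≤ M) hVm (fun _ _ h => h) hVb (X ω) hω.2.1 hω.2.2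
  have lev := level hw₀ hμ hV hx12 hX cA hLv hI hc.d1 hc.cont1 (fun ξ => (hc.b01 ξ).1) hc.e1 hc.e2
  have err := err_le hc hk hl hx12 hX
  -- continuity
  have cc := hX.an.continuousOn
  have cAH : CH x₁ x₂ π (fun ξ η => A (pt ξ η)) := by
    refine cA.comp (f := fun p : ℝ × ℝ => pt p.1 p.2)
      (Pool.Agent.Helper78.EK.continuous_pt.continuousOn) fun p hp' =>
      pt_mem_RectH (h := π) hp'.1 hp'.2
  have cn : CH x₁ x₂ π (fun ξ η => ‖X (pt ξ η)‖ ^ 2 - (X (pt ξ η)).re) :=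
    CH_comp (h := π) cc (W := fun Z => ‖Z‖ ^ 2 - Z.re) (by fun_prop)
  have cT : CH x₁ x₂ π (fun ξ η =>
      T (X (pt ξ η)) (deriv X (pt ξ η)) (Real.sin η) (Real.cos η)) := by
    have c1 := contH (h := π) hX.an.continuousOn
    have c2 := contH (h := π) hX.an.deriv.continuousOn
    have c3 : ContinuousOn (fun p : ℝ × ℝ => Real.sin p.2) (Icc x₁ x₂ ×ˢ Icc 0 π) :=
      (Real.continuous_sin.comp continuous_snd).continuousOn
    have c4 : ContinuousOn (fun p : ℝ × ℝ => Real.cos p.2) (Icc x₁ x₂ ×ˢ Icc 0 π) :=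
      (Real.continuous_cos.comp continuous_snd).continuousOn
    exact hTc.comp (c1.prodMk (c2.prodMk (c3.prodMk c4)))
      fun p hp' => hX.ne _ (pt_mem_RectH (h := π) hp'.1 hp'.2)
  have cχT : CH x₁ x₂ π (fun ξ η => χ ξ *
      T (X (pt ξ η)) (deriv X (pt ξ η)) (Real.sin η) (Real.cos η)) := (CH_xi hc.cont).mul cT
  have cχB : CH x₁ x₂ π (fun ξ η => χ ξ * (A (pt ξ η) +
      w₀ * (‖X (pt ξ η)‖ ^ 2 - (X (pt ξ η)).re))) :=
    (CH_xi hc.cont).mul (cAH.add ((CH_const _).mul cn))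
  have cE : CH x₁ x₂ π (fun ξ η => 2 * Cst w₀ M μ * (|χ₁ ξ| * |(X (pt ξ η)).im|)) :=
    (CH_const _).mul ((CH_xi hc.cont1.abs).mul
      (CH_comp (h := π) cc (W := fun Z => |Z.im|) (by fun_prop)))
  have e1 : ∀ (y₁ y₂ : ℝ) (F : ℝ → ℝ → ℝ), II y₁ y₂ F = IH y₁ y₂ π F := fun _ _ _ => rfl
  -- the middle part
  have whole : II (x₁ + l) (x₂ - l)
      (fun ξ η => T (X (pt ξ η)) (deriv X (pt ξ η)) (Real.sin η) (Real.cos η)) ≤
      II x₁ x₂ (fun ξ η => χ ξ *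
        T (X (pt ξ η)) (deriv X (pt ξ η)) (Real.sin η) (Real.cos η)) := by
    have hin : CH (x₁ + l) (x₂ - l) π (fun ξ η =>
        T (X (pt ξ η)) (deriv X (pt ξ η)) (Real.sin η) (Real.cos η)) :=
      ContinuousOn.mono cT (prod_mono (Icc_subset_Icc (by linarith) (by linarith)) subset_rfl)
    have hin2 : CH (x₁ + l) (x₂ - l) π (fun ξ η => χ ξ *
        T (X (pt ξ η)) (deriv X (pt ξ η)) (Real.sin η) (Real.cos η)) :=
      ContinuousOn.mono cχT (prod_mono (Icc_subset_Icc (by linarith) (by linarith)) subset_rfl)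
    rw [e1, e1]
    refine (IH_mono hx Real.pi_pos.le hin hin2 fun ξ hξ η _ => ?_).trans ?_
    · rw [hc.mid ξ hξ, one_mul]
    · rw [IH_eq hx Real.pi_pos.le hin2, IH_eq hx12 Real.pi_pos.le cχT]
      refine setIntegral_mono_set cχT.integrableOn ?_ ?_
      · exact (ae_restrict_iff' (measurableSet_Icc.prod measurableSet_Icc)).2
          (Filter.Eventually.of_forall fun p _ => mul_nonneg (hc.b01 _).1 (hT0 _ _ _ _))
      · exact (prod_mono (Icc_subset_Icc (by linarith) (by linarith)) subset_rfl).eventuallyLE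
  have s1 : II x₁ x₂ (fun ξ η => χ ξ * TT w₀ μ V Vx Vy Ve T
      (X (pt ξ η)) (deriv X (pt ξ η)) (Real.sin η) (Real.cos η)) =
      II x₁ x₂ (fun ξ η => χ ξ *
        T (X (pt ξ η)) (deriv X (pt ξ η)) (Real.sin η) (Real.cos η)) +
      II x₁ x₂ (fun ξ η => χ ξ * (A (pt ξ η) +
        w₀ * (‖X (pt ξ η)‖ ^ 2 - (X (pt ξ η)).re))) := by
    rw [e1, e1, e1, ← IH_add hx12 hπ.le cχT cχB]
    congr 1
    funext ξ η
    rw [hA]
    simp only [pt_im]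
    unfold TT
    ring
  have s2 : II x₁ x₂ (fun ξ η => Hf w₀ (Cst w₀ M μ) A χ χ₁ X (pt ξ η)) =
      II x₁ x₂ (fun ξ η => χ ξ * (A (pt ξ η) +
        w₀ * (‖X (pt ξ η)‖ ^ 2 - (X (pt ξ η)).re))) +
      2 * Cst w₀ M μ * II x₁ x₂ (fun ξ η => |χ₁ ξ| * |(X (pt ξ η)).im|) := by
    rw [e1, e1, e1, ← IH_const_mul, ← IH_add hx12 hπ.le cχB cE]
    congr 1
    funext ξ η
    unfold Hf
    simp only [pt_re]
    ring
  rw [s1] at hmain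
  rw [s2] at lev
  obtain ⟨E, hE⟩ : ∃ E, E = II x₁ x₂ (fun ξ η => ‖X (pt ξ η) - 1‖ ^ 2) := ⟨_, rfl⟩
  have hE0 : 0 ≤ E := by
    rw [hE, ← En_add hx12 hX]
    exact add_nonneg (En_nonneg hx12) (En_nonneg hx12)
  rw [← hE] at hmain err ⊢
  have hF0 : 0 ≤ 1 + E / l := by
    have := div_nonneg hE0 hl0.le
    linarith
  have r1 : C * (1 + E / l) ≤ |C| * (1 + E / l) := mul_le_mul_of_nonneg_right (le_abs_self C) hF0
  have r2 := mul_le_mul_of_nonneg_left err (mul_nonneg zero_le_two hCst)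
  have r3 : (|C| + 2 * Cst w₀ M μ * ((π + 1) * k)) * (1 + E / l) = |C| * (1 + E / l) +
      2 * Cst w₀ M μ * ((π + 1) * k * (1 + E / l)) := by ring
  rw [r3]
  linarith

end Pool.Agent.Helper84.EK4
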