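import Pool.Agent.Helper84.EK4.LevelCore
import Pool.Agent.Helper69.EK3.Line
set_option autoImplicit false
open Complex MeasureTheory Metric Set
open scoped Real ComplexConjugate

/-!
# Project EK4: the integrated inequality of a level certificate with the centre line
-/

namespace Pool.Agent.Helper84.EK4

open Pool.Agent.Helper52.EK Pool.Agent.Helper69.EK3

variable {P : (ℂ → ℂ) → ℝ → ℝ → Prop}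

/-- the integrated inequality, with the Koebe bound on the centre line only -/
theorem strip_level {k₂ w₀ D M μ : ℝ} (hw₀ : 0 ≤ w₀) (hk₂ : w₀ ≤ k₂) (hμ : 0 ≤ μ + w₀)
    {T : ℂ → ℂ → ℝ → ℝ → ℝ} (hT0 : ∀ (X Y : ℂ) (s c : ℝ), 0 ≤ T X Y s c)
    (hTc : ContinuousOn (fun p : ℂ × ℂ × ℝ × ℝ => T p.1 p.2.1 p.2.2.1 p.2.2.2) {p | p.1 ≠ 0})
    (hTm : ∀ (X Y : ℂ) (s c : ℝ), T (conj X) (conj Y) s c = T X Y s (-c))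
    {N : ℂ → ℂ → ℝ → ℝ} {K : ℂ → ℂ → ℝ} (hN : IsNull P N K)
    {V Vx Vy Ve : ℂ → ℝ → ℝ} (hV : C1g V Vx Vy Ve)
    (hVm : ∀ X η, V (conj X) (π - η) = V X η)
    (hVb : ∀ X, ∀ η ∈ Icc (0:ℝ) (π / 2), |V X η| ≤ M)
    (hVs : ∀ X, ∀ η ∈ Icc (0:ℝ) (π / 2), 0 ≤ (V X η - w₀) * (2 * X.re - ‖X‖ ^ 2))
    (hp : ∀ (X : ℂ → ℂ) (x₁ x₂ : ℝ), x₁ ≤ x₂ → NiceH X x₁ x₂ → P X x₁ x₂ →
      ∃ ε : ℝ → ℝ, Continuous ε ∧ (∀ ξ, 0 ≤ ε ξ) ∧ ∫ ξ in x₁..x₂, ε ξ ≤ D ∧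
        ∀ ξ ∈ Icc x₁ x₂, ∀ η ∈ Icc (0:ℝ) (π / 2),
          T (X (pt ξ η)) (deriv X (pt ξ η)) (Real.sin η) (Real.cos η) +
              η * |dL Vx Vy Ve (X (pt ξ η)) (deriv X (pt ξ η)) η| ≤
            k₂ * (1 - (X (pt ξ η)).re) + V (X (pt ξ η)) η * (‖X (pt ξ η)‖ ^ 2 - (X (pt ξ η)).re) +
              N (X (pt ξ η)) (deriv X (pt ξ η)) η + ε ξ ∧
          T (X (pt ξ η)) (deriv X (pt ξ η)) (Real.sin η) (Real.cos η) ≤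
            k₂ * (1 - (X (pt ξ η)).re) + w₀ * ‖X (pt ξ η)‖ ^ 2 + μ * (X (pt ξ η)).re +
              N (X (pt ξ η)) (deriv X (pt ξ η)) η + ε ξ)
    {Ec Ex Ey W Wx Wy : ℂ → ℝ} (hW : C1f W Wx Wy) (hE : C1f Ec Ex Ey)
    (hK : ∀ X Y : ℂ, X ≠ 0 → K X Y + K (conj X) (conj Y) =
      - Ec X + (Wx X * Y.re + Wy X * Y.im))
    (hE0 : ∀ X : ℂ, ‖X‖ ≤ 1 → 0 ≤ Ec X) {r D' : ℝ} (hr : 1 ≤ r) :
    ∃ C : ℝ, ∀ (X : ℂ → ℂ) (δ : ℝ → ℝ) (x₁ x₂ l : ℝ), 1 ≤ l → x₁ + l ≤ x₂ - l →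
      NiceX X x₁ x₂ → InjF X x₁ x₂ → P X x₁ x₂ → P (mir X) x₁ x₂ → Continuous δ →
      (∀ ξ ∈ Icc x₁ x₂, 0 ≤ δ ξ) → (∀ ξ ∈ Icc x₁ x₂, 1 + δ ξ ≤ r) →
      (∀ ξ ∈ Icc x₁ x₂, ‖X (pt ξ (π / 2))‖ ≤ 1 + δ ξ) → ∫ ξ in x₁..x₂, δ ξ ≤ D' →
      II (x₁ + l) (x₂ - l)
        (fun ξ η => T (X (pt ξ η)) (deriv X (pt ξ η)) (Real.sin η) (Real.cos η)) ≤
      w₀ * II x₁ x₂ (fun ξ η => ‖X (pt ξ η) - 1‖ ^ 2) +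
        (k₂ - w₀) * (π * ∫ ξ in x₁..x₂, (1 - (X (pt ξ (π / 2))).re)) +
        C * (1 + II x₁ x₂ (fun ξ η => ‖X (pt ξ η) - 1‖ ^ 2) / l) := by
  obtain ⟨k, C, hk, hC⟩ := level_core hw₀ hk₂ hμ hT0 hTc hTm hN hV hVm hVb hVs hp
  obtain ⟨M', hM, hL⟩ := C1f_lip hE r
  obtain ⟨C', hC'⟩ := line_K hW (Pool.Agent.Helper4.EK.C1f.continuous hE) hK hE0 hr hM hL hk
  refine ⟨|C| + |C'| + M' * |D'| + (k₂ - w₀) * (π * |D'|), ?_⟩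
  intro X δ x₁ x₂ l hl hx hX hI hP hP' cδ δ0 δr hδ hD'
  obtain ⟨χ, χ₁, χ₂, hc, hmain⟩ := hC X x₁ x₂ l hl hx hX hI hP hP'
  have hx12 : x₁ ≤ x₂ := by linarith
  have h1 := hC' l x₁ x₂ χ χ₁ χ₂ X δ hc hx12 (NiceX.half hX) cδ δ0 δr hδ
  have h2 := line_lin hc hx12 (NiceX.half hX) cδ δ0 fun ξ hξ =>
    (re_le_norm _).trans (hδ ξ hξ)
  have hE0' : 0 ≤ II x₁ x₂ (fun ξ η => ‖X (pt ξ η) - 1‖ ^ 2) := by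
    rw [← En_add hx12 hX]
    exact add_nonneg (En_nonneg hx12) (En_nonneg hx12)
  obtain ⟨F, hF⟩ : ∃ F, F = II x₁ x₂ (fun ξ η => ‖X (pt ξ η) - 1‖ ^ 2) / l := ⟨_, rfl⟩
  have hF0 : 0 ≤ F := by
    rw [hF]
    exact div_nonneg hE0' (by linarith)
  rw [← hF] at hmain ⊢
  have hd : ∫ ξ in x₁..x₂, δ ξ ≤ |D'| := hD'.trans (le_abs_self _)
  have a1 : M' * ∫ ξ in x₁..x₂, δ ξ ≤ M' * |D'| := mul_le_mul_of_nonneg_left hd hM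
  have a2 : C ≤ |C| := le_abs_self C
  have a3 : C' ≤ |C'| := le_abs_self C'
  have hkl : 0 ≤ k₂ - w₀ := by linarith
  have a4 : (k₂ - w₀) * (π * ∫ ξ in x₁..x₂, χ ξ * (1 - (X (pt ξ (π / 2))).re)) ≤
      (k₂ - w₀) * (π * ((∫ ξ in x₁..x₂, (1 - (X (pt ξ (π / 2))).re)) + |D'|)) := by
    refine mul_le_mul_of_nonneg_left (mul_le_mul_of_nonneg_left ?_ Real.pi_pos.le) hkl
    linarith
  have a5 : (k₂ - w₀) * (π * ((∫ ξ in x₁..x₂, (1 - (X (pt ξ (π / 2))).re)) + |D'|)) =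
      (k₂ - w₀) * (π * ∫ ξ in x₁..x₂, (1 - (X (pt ξ (π / 2))).re)) +
        (k₂ - w₀) * (π * |D'|) := by ring
  have a6 : C * (1 + F) ≤ |C| * (1 + F) := mul_le_mul_of_nonneg_right a2 (by linarith)
  have n1 : 0 ≤ |C'| * F := mul_nonneg (abs_nonneg _) hF0
  have n2 : 0 ≤ M' * |D'| * F := mul_nonneg (mul_nonneg hM (abs_nonneg _)) hF0
  have n3 : 0 ≤ (k₂ - w₀) * (π * |D'|) * F :=
    mul_nonneg (mul_nonneg hkl (mul_nonneg Real.pi_pos.le (abs_nonneg _))) hF0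
  have a7 : (|C| + |C'| + M' * |D'| + (k₂ - w₀) * (π * |D'|)) * (1 + F) =
      |C| * (1 + F) + |C'| + M' * |D'| + (k₂ - w₀) * (π * |D'|) +
        |C'| * F + M' * |D'| * F + (k₂ - w₀) * (π * |D'|) * F := by ring
  rw [a7]
  linarith

end Pool.Agent.Helper84.EK4
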